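import Mathlib

/-!
# Two facts on polynomials and their shifts
-/

set_option autoImplicit false

namespace Pool.Agent.U623.HK

open Polynomial

/-- the shift -/
noncomputable def sh (p : ℂ[X]) : ℂ[X] := p.comp (X + 1)

lemma sh_eval (p : ℂ[X]) (x : ℂ) : (sh p).eval x = p.eval (x + 1) := by
  rw [sh, eval_comp]
  simp

lemma sh_ne {p : ℂ[X]} (hp : p ≠ 0) : sh p ≠ 0 := by
  intro h
  apply hp
  have h1 : (sh p).comp (X - 1) = p := by
    rw [sh, comp_assoc]
    simp
  rw [← h1, h, zero_comp]

lemma poly_zero {p : ℂ[X]} {N : ℕ} (h : ∀ n : ℕ, N ≤ n → p.eval (n : ℂ) = 0) : p = 0 := by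
  refine Polynomial.eq_zero_of_infinite_isRoot p ?_
  refine Set.Infinite.mono (s := (fun n : ℕ => (n : ℂ)) '' Set.Ici N) ?_ ?_
  · rintro _ ⟨n, hn, rfl⟩
    exact h n hn
  · exact (Set.Ici_infinite N).image (fun a _ b _ hab => Nat.cast_injective hab)

lemma poly_ne_zero {p : ℂ[X]} (hp : p ≠ 0) : ∃ N : ℕ, ∀ n : ℕ, N ≤ n → p.eval (n : ℂ) ≠ 0 := by
  have h1 : Set.Finite {n : ℕ | p.eval (n : ℂ) = 0} := by
    have h2 : (p.roots.toFinset : Set ℂ).Finite := Finset.finite_toSet _
    refine Set.Finite.of_injOn (f := fun n : ℕ => (n : ℂ)) (t := (p.roots.toFinset : Set ℂ)) ?_ ?_ h2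
    · intro n hn
      simp only [Finset.mem_coe, Multiset.mem_toFinset]
      exact (mem_roots hp).2 hn
    · intro a _ b _ hab
      exact Nat.cast_injective hab
  obtain ⟨B, hB⟩ := h1.bddAbove
  refine ⟨B + 1, fun n hn h => ?_⟩
  have := hB (a := n) h
  omega

/-- the quotient is constant -/
lemma quot {P p : ℂ[X]} (hP : P ≠ 0) (hp : p ≠ 0) {ζ ζ0 : ℂ} (hζ : ζ ≠ 0)
    (h : C ζ * P * sh p = C ζ0 * sh P * p) : ζ = ζ0 ∧ ∃ a : ℂ, p = C a * P := by
  have hlc : ∀ q : ℂ[X], (sh q).leadingCoeff = q.leadingCoeff := by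
    intro q
    have hm : (X + 1 : ℂ[X]).Monic := by
      have := monic_X_add_C (1 : ℂ)
      rwa [C_1] at this
    rw [sh, leadingCoeff_comp (by
      have := natDegree_X_add_C (1 : ℂ)
      rw [C_1] at this
      rw [this]; exact one_ne_zero), hm.leadingCoeff, one_pow, mul_one]
  have h1 : ζ = ζ0 := by
    have h2 := congrArg leadingCoeff h
    rw [leadingCoeff_mul, leadingCoeff_mul, leadingCoeff_mul, leadingCoeff_mul, leadingCoeff_C,
      leadingCoeff_C, hlc, hlc] at h2
    have hP1 : P.leadingCoeff ≠ 0 := leadingCoeff_ne_zero.2 hP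
    have hp1 : p.leadingCoeff ≠ 0 := leadingCoeff_ne_zero.2 hp
    have h3 : (ζ - ζ0) * (P.leadingCoeff * p.leadingCoeff) = 0 := by linear_combination h2
    rcases mul_eq_zero.1 h3 with h4 | h4
    · exact sub_eq_zero.1 h4
    · exact absurd h4 (mul_ne_zero hP1 hp1)
  refine ⟨h1, ?_⟩
  subst h1
  have h2 : P * sh p = sh P * p := by
    have h3 : C ζ * (P * sh p - sh P * p) = 0 := by linear_combination h
    rcases mul_eq_zero.1 h3 with h4 | h4
    · exact absurd (C_eq_zero.1 h4) hζ
    · exact sub_eq_zero.1 h4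
  obtain ⟨N, hN⟩ := poly_ne_zero hP
  refine ⟨p.eval (N : ℂ) / P.eval (N : ℂ), ?_⟩
  have h3 : ∀ n : ℕ, N ≤ n → p.eval (n : ℂ) / P.eval (n : ℂ) = p.eval (N : ℂ) / P.eval (N : ℂ) := by
    intro n hn
    induction n, hn using Nat.le_induction with
    | base => rfl
    | succ n hn ih =>
      rw [← ih]
      have h4 := congrArg (fun q => q.eval (n : ℂ)) h2
      simp only [eval_mul, sh_eval] at h4
      have h5 := hN n hn
      have h6 := hN (n + 1) (by omega)
      push_cast at h6 ⊢
      rw [div_eq_div_iff h6 h5]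
      linear_combination h4
  have h4 : p - C (p.eval (N : ℂ) / P.eval (N : ℂ)) * P = 0 := by
    refine poly_zero (N := N) fun n hn => ?_
    rw [eval_sub, eval_mul, eval_C, ← h3 n hn, div_mul_cancel₀ _ (hN n hn), sub_self]
  exact sub_eq_zero.1 h4

/-- no telescoping -/
lemma pole (a : ℕ) (ha : 1 ≤ a) {η ζ0 : ℂ} (hη : η ≠ 0) (hζ : ζ0 ≠ 0) {D : ℂ[X]} (hD : D.eval 0 ≠ 0) :
    ∀ (n : ℕ) (P q : ℂ[X]), P.natDegree ≤ n → P ≠ 0 →
      X ^ a * (C η * P.comp (X - 1) * q - C ζ0 * P * q.comp (X - 1)) + C η * P.comp (X - 1) * P * D = 0 →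
      False := by
  intro n
  induction n with
  | zero =>
    intro P q hn hP h
    obtain ⟨b, rfl⟩ : ∃ b, P = C b := ⟨P.coeff 0, eq_C_of_natDegree_le_zero hn⟩
    have hb : b ≠ 0 := fun h0 => hP (by rw [h0, C_0])
    have h1 := congrArg (fun q => q.eval 0) h
    simp only [eval_add, eval_mul, eval_pow, eval_X, eval_sub, eval_C, eval_comp, eval_zero] at h1
    rw [zero_pow (by omega), zero_mul, zero_add] at h1
    exact mul_ne_zero (mul_ne_zero (mul_ne_zero hη hb) hb) hD h1
  | succ n ih =>
    intro P q hn hP h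
    by_cases hcom : ∃ α : ℂ, P.eval α = 0 ∧ q.eval α = 0
    · obtain ⟨α, h1, h2⟩ := hcom
      obtain ⟨P', rfl⟩ := dvd_iff_isRoot.2 h1
      obtain ⟨q', rfl⟩ := dvd_iff_isRoot.2 h2
      have hP' : P' ≠ 0 := right_ne_zero_of_mul hP
      have hdeg : P'.natDegree ≤ n := by
        rw [natDegree_mul (X_sub_C_ne_zero α) hP', natDegree_X_sub_C] at hn
        omega
      refine ih P' q' hdeg hP' ?_
      have h3 : ((X - C α) * (X - 1 - C α)) *
          (X ^ a * (C η * P'.comp (X - 1) * q' - C ζ0 * P' * q'.comp (X - 1)) +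
            C η * P'.comp (X - 1) * P' * D) = 0 := by
        rw [← h]
        simp only [mul_comp, sub_comp, X_comp, C_comp]
        ring
      rcases mul_eq_zero.1 h3 with h4 | h4
      · exfalso
        rcases mul_eq_zero.1 h4 with h5 | h5
        · exact X_sub_C_ne_zero α h5
        · have h6 : (X - C (1 + α) : ℂ[X]) = 0 := by
            rw [← h5, C_add, C_1]
            ring
          exact X_sub_C_ne_zero _ h6
      · exact h4
    · push Not at hcom
      have hev : ∀ x : ℂ, x ^ a * (η * P.eval (x - 1) * q.eval x - ζ0 * P.eval x * q.eval (x - 1)) +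
          η * P.eval (x - 1) * P.eval x * D.eval x = 0 := by
        intro x
        have h1 := congrArg (fun q => q.eval x) h
        simp only [eval_add, eval_mul, eval_pow, eval_X, eval_sub, eval_C, eval_comp, eval_zero,
          eval_one] at h1
        exact h1
      by_cases hroot : P.roots.toFinset.Nonempty
      · obtain ⟨α, hα, hmax⟩ := Finset.exists_max_image P.roots.toFinset (fun z : ℂ => z.re) hroot
        obtain ⟨β, hβ, hmin⟩ := Finset.exists_min_image P.roots.toFinset (fun z : ℂ => z.re) hroot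
        have hmem : ∀ z : ℂ, z ∈ P.roots.toFinset ↔ P.eval z = 0 := by
          intro z
          rw [Multiset.mem_toFinset, mem_roots hP]
          rfl
        have hα0 := (hmem α).1 hα
        have hβ0 := (hmem β).1 hβ
        have e1 : α = -1 := by
          have h1 := hev (α + 1)
          rw [add_sub_cancel_right, hα0] at h1
          have h2 : P.eval (α + 1) ≠ 0 := by
            intro h3
            have h4 := hmax (α + 1) ((hmem _).2 h3)
            simp only [Complex.add_re, Complex.one_re] at h4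
            linarith
          have h5 : (α + 1) ^ a * (ζ0 * P.eval (α + 1) * q.eval α) = 0 := by linear_combination -h1
          rcases mul_eq_zero.1 h5 with h6 | h6
          · have h7 := pow_eq_zero_iff (by omega : a ≠ 0) |>.1 h6
            linear_combination h7
          · exact absurd h6 (mul_ne_zero (mul_ne_zero hζ h2) (hcom α hα0))
        have e2 : β = 0 := by
          have h1 := hev β
          rw [hβ0] at h1
          have h2 : P.eval (β - 1) ≠ 0 := by
            intro h3
            have h4 := hmin (β - 1) ((hmem _).2 h3)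
            simp only [Complex.sub_re, Complex.one_re] at h4
            linarith
          have h5 : β ^ a * (η * P.eval (β - 1) * q.eval β) = 0 := by linear_combination h1
          rcases mul_eq_zero.1 h5 with h6 | h6
          · exact pow_eq_zero_iff (by omega : a ≠ 0) |>.1 h6
          · exact absurd h6 (mul_ne_zero (mul_ne_zero hη h2) (hcom β hβ0))
        have h8 := hmin α hα
        rw [e1, e2] at h8
        simp at h8
        linarith
      · have hno : ∀ z : ℂ, P.eval z ≠ 0 := by
          intro z hz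
          apply hroot
          exact ⟨z, by rw [Multiset.mem_toFinset, mem_roots hP]; exact hz⟩
        have h1 := hev 0
        rw [zero_pow (by omega), zero_mul, zero_add] at h1
        exact mul_ne_zero (mul_ne_zero (mul_ne_zero hη (hno _)) (hno _)) hD h1

end Pool.Agent.U623.HK
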