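import Mathlib
import Pool.Agent.U623.HK.Pole

/-!
# Coloured harmonic sums are linearly independent over the rational functions
-/

set_option autoImplicit false

namespace Pool.Agent.U623.HK

open Polynomial

/-- truncated coloured sums: the sum of `∏ z_i ^ (n_i) / n_i ^ (a_i)` over `N ≥ n_1 > ... > n_r ≥ 1` -/
noncomputable def Hc : List (ℕ × ℂ) → ℕ → ℂ
  | [], _ => 1
  | (l :: w), N => ∑ n ∈ Finset.range N, l.2 ^ (n + 1) * (((n + 1 : ℕ) : ℂ) ^ l.1)⁻¹ * Hc w n

lemma Hc_nil (N : ℕ) : Hc [] N = 1 := by rw [Hc]

lemma Hc_cons (l : ℕ × ℂ) (w : List (ℕ × ℂ)) (N : ℕ) :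
    Hc (l :: w) N = ∑ n ∈ Finset.range N, l.2 ^ (n + 1) * (((n + 1 : ℕ) : ℂ) ^ l.1)⁻¹ * Hc w n := by rw [Hc]

lemma Hc_succ (l : ℕ × ℂ) (w : List (ℕ × ℂ)) (N : ℕ) :
    Hc (l :: w) (N + 1) = Hc (l :: w) N + l.2 ^ (N + 1) * (((N + 1 : ℕ) : ℂ) ^ l.1)⁻¹ * Hc w N := by
  rw [Hc_cons, Finset.sum_range_succ, ← Hc_cons]

/-- indices -/
abbrev Ix := ℂ × List (ℕ × ℂ)

/-- the functions -/
noncomputable def FI (i : Ix) (n : ℕ) : ℂ := i.1 ^ n * Hc i.2 n

/-- the value of a combination with polynomial coefficients -/
noncomputable def ev (n : ℕ) : (Ix →₀ ℂ[X]) →+ ℂ :=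
  Finsupp.liftAddHom fun i => (AddMonoidHom.mulRight (FI i n)).comp (evalRingHom (n : ℂ)).toAddMonoidHom

lemma ev_single (n : ℕ) (i : Ix) (p : ℂ[X]) : ev n (Finsupp.single i p) = p.eval (n : ℂ) * FI i n := by
  rw [ev, Finsupp.liftAddHom_apply_single]
  rfl

lemma ev_eq (n : ℕ) (c : Ix →₀ ℂ[X]) : ev n c = c.sum fun i p => p.eval (n : ℂ) * FI i n := by
  rw [ev, Finsupp.liftAddHom_apply]
  rfl

/-- good indices -/
def Good (i : Ix) : Prop := i.1 ≠ 0 ∧ ∀ l ∈ i.2, 1 ≤ l.1 ∧ l.2 ≠ 0

/-- the shorter words -/
noncomputable def ext (A : ℕ) (P0 : ℂ[X]) (i : Ix) (p : ℂ[X]) : Ix →₀ ℂ[X] :=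
  match i.2 with
  | [] => 0
  | (l :: w) => Finsupp.single (i.1 * l.2, w) ((X + 1) ^ (A - l.1) * C (i.1 * l.2) * P0 * sh p)

/-- one term of the new relation -/
noncomputable def term (A : ℕ) (ζ0 : ℂ) (P0 : ℂ[X]) (i : Ix) (p : ℂ[X]) : Ix →₀ ℂ[X] :=
  Finsupp.single i ((X + 1) ^ A * (C i.1 * P0 * sh p - C ζ0 * sh P0 * p)) + ext A P0 i p

lemma ev_term (A : ℕ) (ζ0 : ℂ) (P0 : ℂ[X]) (i : Ix) (p : ℂ[X]) (m : ℕ) (hA : ∀ l ∈ i.2, l.1 ≤ A) :
    ev m (term A ζ0 P0 i p) = ((m : ℂ) + 1) ^ A * (P0.eval (m : ℂ) * (p.eval ((m : ℂ) + 1) * FI i (m + 1)) -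
      ζ0 * P0.eval ((m : ℂ) + 1) * (p.eval (m : ℂ) * FI i m)) := by
  obtain ⟨ζ, u⟩ := i
  have hm : ((m : ℂ) + 1) ≠ 0 := by exact_mod_cast (by omega : m + 1 ≠ 0)
  cases u with
  | nil =>
    rw [term, ext]
    simp only [add_zero]
    rw [ev_single]
    simp only [FI, Hc_nil, eval_mul, eval_pow, eval_add, eval_X, eval_one, eval_sub, eval_C, sh_eval]
    ring
  | cons l w =>
    rw [term, ext]
    simp only
    rw [map_add, ev_single, ev_single]
    have h1 : l.1 ≤ A := hA l List.mem_cons_self
    have h2 : ((m : ℂ) + 1) ^ A = ((m : ℂ) + 1) ^ (A - l.1) * ((m : ℂ) + 1) ^ l.1 := by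
      rw [← pow_add, Nat.sub_add_cancel h1]
    have h3 : ((m : ℂ) + 1) ^ l.1 ≠ 0 := pow_ne_zero _ hm
    simp only [FI, eval_mul, eval_pow, eval_add, eval_X, eval_one, eval_sub, eval_C, sh_eval, Hc_succ]
    push_cast
    rw [h2]
    field_simp
    ring

/-- the new relation -/
noncomputable def nw (A : ℕ) (ζ0 : ℂ) (P0 : ℂ[X]) (c : Ix →₀ ℂ[X]) : Ix →₀ ℂ[X] := c.sum (term A ζ0 P0)

lemma ev_nw (A : ℕ) (ζ0 : ℂ) (P0 : ℂ[X]) (c : Ix →₀ ℂ[X]) (m : ℕ) (hA : ∀ i ∈ c.support, ∀ l ∈ i.2, l.1 ≤ A)
    (h1 : ev m c = 0) (h2 : ev (m + 1) c = 0) : ev m (nw A ζ0 P0 c) = 0 := by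
  rw [nw, Finsupp.sum, map_sum, Finset.sum_congr rfl fun i hi => ev_term A ζ0 P0 i (c i) m (hA i hi)]
  rw [ev_eq, Finsupp.sum] at h1 h2
  rw [← Finset.mul_sum, Finset.sum_sub_distrib, ← Finset.mul_sum, ← Finset.mul_sum]
  push_cast at h2
  rw [h1, h2]
  ring

lemma ext_apply_of_len {A : ℕ} {P0 : ℂ[X]} {i j : Ix} {p : ℂ[X]} {t : ℕ} (hi : i.2.length ≤ t)
    (hj : j.2.length = t) : ext A P0 i p j = 0 := by
  obtain ⟨ζ, u⟩ := i
  cases u with
  | nil => rw [ext]; simp
  | cons l w =>
    rw [ext]
    simp only
    rw [Finsupp.single_apply, if_neg]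
    rintro rfl
    simp only [List.length_cons] at hi hj
    omega

/-- coefficients of the longest words -/
lemma nw_top (A : ℕ) (ζ0 : ℂ) (P0 : ℂ[X]) (c : Ix →₀ ℂ[X]) (t : ℕ) (hc : ∀ i ∈ c.support, i.2.length ≤ t)
    (j : Ix) (hj : j.2.length = t) :
    nw A ζ0 P0 c j = (X + 1) ^ A * (C j.1 * P0 * sh (c j) - C ζ0 * sh P0 * c j) := by
  classical
  rw [nw, Finsupp.sum, Finsupp.finsetSum_apply]
  have h1 : ∀ i ∈ c.support, term A ζ0 P0 i (c i) j =
      if i = j then (X + 1) ^ A * (C j.1 * P0 * sh (c j) - C ζ0 * sh P0 * c j) else 0 := by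
    intro i hi
    rw [term, Finsupp.add_apply, ext_apply_of_len (hc i hi) hj, add_zero, Finsupp.single_apply]
    by_cases h : i = j
    · rw [if_pos h, if_pos h, h]
    · rw [if_neg h, if_neg h]
  rw [Finset.sum_congr rfl h1, Finset.sum_ite_eq' c.support j]
  by_cases h : j ∈ c.support
  · rw [if_pos h]
  · rw [if_neg h]
    rw [Finsupp.notMem_support_iff] at h
    rw [h, sh, zero_comp, mul_zero, mul_zero, sub_zero, mul_zero]

/-- coefficients of the other words -/
lemma nw_low (A : ℕ) (ζ0 : ℂ) (P0 : ℂ[X]) (c : Ix →₀ ℂ[X]) (j : Ix) :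
    nw A ζ0 P0 c j = (X + 1) ^ A * (C j.1 * P0 * sh (c j) - C ζ0 * sh P0 * c j) +
      ∑ i ∈ c.support, ext A P0 i (c i) j := by
  classical
  rw [nw, Finsupp.sum, Finsupp.finsetSum_apply]
  have h1 : ∀ i ∈ c.support, term A ζ0 P0 i (c i) j =
      (if i = j then (X + 1) ^ A * (C j.1 * P0 * sh (c j) - C ζ0 * sh P0 * c j) else 0) +
        ext A P0 i (c i) j := by
    intro i hi
    rw [term, Finsupp.add_apply, Finsupp.single_apply]
    by_cases h : i = j
    · rw [if_pos h, if_pos h, h]
    · rw [if_neg h, if_neg h]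
  rw [Finset.sum_congr rfl h1, Finset.sum_add_distrib, Finset.sum_ite_eq' c.support j]
  congr 1
  by_cases h : j ∈ c.support
  · rw [if_pos h]
  · rw [if_neg h]
    rw [Finsupp.notMem_support_iff] at h
    rw [h, sh, zero_comp, mul_zero, mul_zero, sub_zero, mul_zero]

/-- the indices of the new relation -/
lemma nw_support (A : ℕ) (ζ0 : ℂ) (P0 : ℂ[X]) (c : Ix →₀ ℂ[X]) (t : ℕ)
    (hc : ∀ i ∈ c.support, Good i ∧ i.2.length ≤ t) :
    ∀ j ∈ (nw A ζ0 P0 c).support, Good j ∧ j.2.length ≤ t := by
  intro j hj
  rw [Finsupp.mem_support_iff, nw_low] at hj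
  by_cases h : j ∈ c.support
  · exact hc j h
  · have h1 : c j = 0 := Finsupp.notMem_support_iff.1 h
    rw [h1, sh, zero_comp, mul_zero, mul_zero, sub_zero, mul_zero, zero_add] at hj
    obtain ⟨i, hi, hne⟩ := Finset.exists_ne_zero_of_sum_ne_zero hj
    obtain ⟨⟨hg1, hg2⟩, hl⟩ := hc i hi
    generalize c i = p at hne
    obtain ⟨ζ, u⟩ := i
    cases u with
    | nil => rw [ext] at hne; simp at hne
    | cons l w =>
      rw [ext] at hne
      simp only at hne
      rw [Finsupp.single_apply] at hne
      by_cases h2 : ((ζ * l.2, w) : Ix) = j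
      · rw [← h2]
        simp only [List.length_cons] at hl
        refine ⟨⟨mul_ne_zero hg1 (hg2 l List.mem_cons_self).2, fun l' hl' => ?_⟩, ?_⟩
        · exact hg2 l' (List.mem_cons_of_mem _ hl')
        · simp only
          omega
      · rw [if_neg h2] at hne
        exact absurd rfl hne

/-- the first letter -/
def fl : List (ℕ × ℂ) → ℕ
  | [] => 0
  | (l :: _) => l.1

lemma sh_back (p : ℂ[X]) : (sh p).comp (X - 1) = p := by
  rw [sh, comp_assoc]
  simp

/-- **Independence** over the polynomials, also with exponential factors. -/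
theorem indep (t : ℕ) : ∀ c : Ix →₀ ℂ[X], (∀ i ∈ c.support, Good i ∧ i.2.length < t) →
    (∃ N : ℕ, ∀ n, N ≤ n → ev n c = 0) → c = 0 := by
  classical
  induction t with
  | zero =>
    intro c hc _
    rw [← Finsupp.support_eq_empty, Finset.eq_empty_iff_forall_notMem]
    intro i hi
    exact absurd (hc i hi).2 (by omega)
  | succ t ih =>
    have hshort : ∀ c : Ix →₀ ℂ[X], (∀ i ∈ c.support, Good i ∧ i.2.length ≤ t) →
        (∃ N : ℕ, ∀ n, N ≤ n → ev n c = 0) → (c.support.filter fun i => i.2.length = t) = ∅ → c = 0 := by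
      intro c hc hz h0
      refine ih c (fun i hi => ⟨(hc i hi).1, ?_⟩) hz
      have h1 := (hc i hi).2
      have h2 : i.2.length ≠ t := by
        intro h3
        have h4 : i ∈ c.support.filter fun i => i.2.length = t := Finset.mem_filter.2 ⟨hi, h3⟩
        rw [h0] at h4
        exact absurd h4 (Finset.notMem_empty _)
      omega
    have key : ∀ (k : ℕ) (c : Ix →₀ ℂ[X]), (∀ i ∈ c.support, Good i ∧ i.2.length ≤ t) →
        (∃ N : ℕ, ∀ n, N ≤ n → ev n c = 0) → (c.support.filter fun i => i.2.length = t).card ≤ k → c = 0 := by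
      intro k
      induction k with
      | zero =>
        intro c hc hz h0
        exact hshort c hc hz (Finset.card_eq_zero.1 (by omega))
      | succ k ihk =>
        intro c hc hz hk
        by_cases hemp : (c.support.filter fun i => i.2.length = t) = ∅
        · exact hshort c hc hz hemp
        exfalso
        obtain ⟨i0, hi0, hmax⟩ := Finset.exists_max_image (c.support.filter fun i => i.2.length = t)
          (fun i => fl i.2) (Finset.nonempty_iff_ne_empty.2 hemp)
        obtain ⟨hi0s, hi0t⟩ := Finset.mem_filter.1 hi0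
        set P0 := c i0 with hP0
        have hP00 : P0 ≠ 0 := Finsupp.mem_support_iff.1 hi0s
        obtain ⟨A, hA⟩ : ∃ A, ∀ i ∈ c.support, ∀ l ∈ i.2, l.1 ≤ A := by
          refine ⟨∑ i ∈ c.support, (i.2.map Prod.fst).sum, fun i hi l hl => ?_⟩
          refine (List.le_sum_of_mem (List.mem_map_of_mem hl)).trans ?_
          exact Finset.single_le_sum (f := fun i : Ix => (i.2.map Prod.fst).sum) (fun _ _ => Nat.zero_le _) hi
        have hlen : ∀ i ∈ c.support, i.2.length ≤ t := fun i hi => (hc i hi).2
        obtain ⟨N, hN⟩ := hz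
        have hnw : nw A i0.1 P0 c = 0 := by
          refine ihk _ (nw_support A i0.1 P0 c t hc) ⟨N, fun n hn => ?_⟩ ?_
          · exact ev_nw A i0.1 P0 c n hA (hN n hn) (hN (n + 1) (by omega))
          · have hsub : ((nw A i0.1 P0 c).support.filter fun i => i.2.length = t) ⊆
                (c.support.filter fun i => i.2.length = t).erase i0 := by
              intro j hj
              obtain ⟨hj1, hj2⟩ := Finset.mem_filter.1 hj
              rw [Finsupp.mem_support_iff, nw_top A i0.1 P0 c t hlen j hj2] at hj1
              rw [Finset.mem_erase, Finset.mem_filter, Finsupp.mem_support_iff]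
              refine ⟨?_, ?_, hj2⟩
              · rintro rfl
                apply hj1
                rw [← hP0]
                ring
              · intro h0
                apply hj1
                rw [h0, sh, zero_comp, mul_zero, mul_zero, sub_zero, mul_zero]
            have h1 := Finset.card_le_card hsub
            rw [Finset.card_erase_of_mem hi0] at h1
            omega
        have hX1 : (X + 1 : ℂ[X]) ≠ 0 := by
          have := X_add_C_ne_zero (1 : ℂ)
          rwa [C_1] at this
        have hζ0 : i0.1 ≠ 0 := (hc i0 hi0s).1.1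
        -- the long words
        have hlong : ∀ j ∈ c.support, j.2.length = t → j.1 = i0.1 ∧ ∃ a : ℂ, c j = C a * P0 := by
          intro j hj hjt
          have h1 := nw_top A i0.1 P0 c t hlen j hjt
          rw [hnw, Finsupp.zero_apply] at h1
          rcases mul_eq_zero.1 h1.symm with h2 | h2
          · exact absurd h2 (pow_ne_zero _ hX1)
          · have h3 := sub_eq_zero.1 h2
            exact quot hP00 (Finsupp.mem_support_iff.1 hj) (hc j hj).1.1 h3
        rcases Nat.eq_zero_or_pos t with ht | ht
        · -- only one exponential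
          have h1 : c.support ⊆ {i0} := by
            intro j hj
            have h2 := hlen j hj
            have h3 := (hlong j hj (by omega)).1
            rw [Finset.mem_singleton]
            have h4 : j.2 = [] := List.length_eq_zero_iff.1 (by omega)
            have h5 : i0.2 = [] := List.length_eq_zero_iff.1 (by omega)
            exact Prod.ext h3 (by rw [h4, h5])
          have h2 := Finsupp.support_subset_singleton.1 h1
          apply hP00
          refine poly_zero (N := N) fun n hn => ?_
          have h3 := hN n hn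
          rw [h2, ev_single, FI] at h3
          have h5 : i0.2 = [] := List.length_eq_zero_iff.1 (by omega)
          rw [h5, Hc_nil, mul_one] at h3
          rcases mul_eq_zero.1 h3 with h4 | h4
          · exact h4
          · exact absurd h4 (pow_ne_zero _ hζ0)
        · obtain ⟨l0, w0, hlw⟩ : ∃ l0 w0, i0.2 = l0 :: w0 := by
            cases h : i0.2 with
            | nil => rw [h] at hi0t; simp at hi0t; omega
            | cons l0 w0 => exact ⟨l0, w0, rfl⟩
          have hl0 := (hc i0 hi0s).1.2 l0 (by rw [hlw]; exact List.mem_cons_self)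
          set η : ℂ := i0.1 * l0.2 with hη
          have hη0 : η ≠ 0 := mul_ne_zero hζ0 hl0.2
          set j1 : Ix := (η, w0) with hj1
          have hi0e : i0 = (i0.1, (l0.1, l0.2) :: w0) := Prod.ext rfl hlw
          set T := c.support.filter fun i : Ix => ∃ a : ℕ, i = (i0.1, (a, l0.2) :: w0) with hT
          have hw0 : w0.length + 1 = t := by
            rw [hlw, List.length_cons] at hi0t
            exact hi0t
          have hTt : ∀ i ∈ T, i ∈ c.support ∧ i.2.length = t := by
            intro i hi
            obtain ⟨h1, a, h2⟩ := Finset.mem_filter.1 hi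
            refine ⟨h1, ?_⟩
            rw [h2]
            simp only [List.length_cons]
            exact hw0
          have hk1 : ∀ i : Ix, ∃ a : ℂ, i ∈ T → c i = C a * P0 := by
            intro i
            by_cases hi : i ∈ T
            · obtain ⟨a, ha⟩ := (hlong i (hTt i hi).1 (hTt i hi).2).2
              exact ⟨a, fun _ => ha⟩
            · exact ⟨0, fun h => absurd h hi⟩
          choose κ hκ using hk1
          set D : ℂ[X] := ∑ i ∈ T, C (κ i) * X ^ (l0.1 - fl i.2) with hD
          have hfl0 : fl i0.2 = l0.1 := by rw [hlw]; rfl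
          have hle : ∀ i ∈ T, fl i.2 ≤ l0.1 := by
            intro i hi
            have h1 := hmax i (Finset.mem_filter.2 (hTt i hi))
            rw [← hfl0]
            exact h1
          have hl0A : l0.1 ≤ A := hA i0 hi0s l0 (by rw [hlw]; exact List.mem_cons_self)
          have hsum : ∑ i ∈ c.support, ext A P0 i (c i) j1 =
              (X + 1) ^ (A - l0.1) * (C η * P0 * sh P0 * sh D) := by
            have h1 : ∑ i ∈ c.support, ext A P0 i (c i) j1 = ∑ i ∈ T, ext A P0 i (c i) j1 := by
              symm
              refine Finset.sum_subset (Finset.filter_subset _ _) fun i hi hiT => ?_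
              by_contra hne
              apply hiT
              rw [hT, Finset.mem_filter]
              refine ⟨hi, ?_⟩
              have hli := hlong i hi
              generalize c i = p at hne
              obtain ⟨ζ, u⟩ := i
              cases u with
              | nil => rw [ext] at hne; simp at hne
              | cons l w =>
                rw [ext] at hne
                simp only at hne
                rw [Finsupp.single_apply] at hne
                by_cases h2 : ((ζ * l.2, w) : Ix) = j1
                · rw [hj1, Prod.mk.injEq] at h2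
                  obtain ⟨h3, h4⟩ := h2
                  subst h4
                  have h5 := (hli (by simp only [List.length_cons]; exact hw0)).1
                  simp only at h5
                  rw [h5, hη] at h3
                  have h6 := mul_left_cancel₀ hζ0 h3
                  refine ⟨l.1, ?_⟩
                  rw [h5, ← h6]
                · rw [if_neg h2] at hne
                  exact (hne rfl).elim
            have hshD : sh D = ∑ i ∈ T, C (κ i) * (X + 1) ^ (l0.1 - fl i.2) := by
              rw [hD, sh, Polynomial.sum_comp]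
              refine Finset.sum_congr rfl fun i _ => ?_
              rw [mul_comp, C_comp, X_pow_comp]
            rw [h1, hshD, Finset.mul_sum, Finset.mul_sum]
            refine Finset.sum_congr rfl fun i hi => ?_
            have h2 := hκ i hi
            have h3 := hle i hi
            obtain ⟨_, a, h4⟩ := Finset.mem_filter.1 hi
            rw [h2]
            rw [h4] at h3 ⊢
            have h5 : fl ((i0.1, (a, l0.2) :: w0) : Ix).2 = a := rfl
            rw [h5] at h3 ⊢
            rw [ext]
            simp only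
            rw [Finsupp.single_apply, if_pos rfl]
            have h6 : (X + 1 : ℂ[X]) ^ (A - a) = (X + 1) ^ (A - l0.1) * (X + 1) ^ (l0.1 - a) := by
              rw [← pow_add]
              congr 1
              omega
            rw [h6]
            simp only [sh, mul_comp, C_comp]
            ring
          have hlow := nw_low A i0.1 P0 c j1
          rw [hnw, Finsupp.zero_apply, hsum] at hlow
          have hAe : (X + 1 : ℂ[X]) ^ A = (X + 1) ^ (A - l0.1) * (X + 1) ^ l0.1 := by
            rw [← pow_add]
            congr 1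
            omega
          rw [hAe] at hlow
          have h7 : (X + 1 : ℂ[X]) ^ (A - l0.1) * ((X + 1) ^ l0.1 * (C η * P0 * sh (c j1) -
              C i0.1 * sh P0 * c j1) + C η * P0 * sh P0 * sh D) = 0 := by
            rw [hlow]
            ring
          rcases mul_eq_zero.1 h7 with h8 | h8
          · exact absurd h8 (pow_ne_zero _ hX1)
          · have h9 := congrArg (fun q => q.comp (X - 1)) h8
            simp only [add_comp, mul_comp, sub_comp, C_comp, sh_back, zero_comp, pow_comp, X_comp,
              one_comp] at h9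
            have hDe : D.eval 0 ≠ 0 := by
              rw [hD, eval_finsetSum, Finset.sum_eq_single i0]
              · rw [hfl0, Nat.sub_self, pow_zero, mul_one, eval_C]
                have h10 : i0 ∈ T := Finset.mem_filter.2 ⟨hi0s, l0.1, hi0e⟩
                have h11 := hκ i0 h10
                intro h12
                rw [h12, C_0, zero_mul] at h11
                exact hP00 h11
              · intro i hi hne
                have h10 := hle i hi
                obtain ⟨_, a, h11⟩ := Finset.mem_filter.1 hi
                have h12 : fl i.2 = a := by rw [h11]; rfl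
                have h13 : a ≠ l0.1 := by
                  rintro rfl
                  exact hne (h11.trans hi0e.symm)
                rw [eval_mul, eval_C, eval_pow, eval_X, h12, zero_pow (by omega), mul_zero]
              · intro h10
                exact absurd (Finset.mem_filter.2 ⟨hi0s, l0.1, hi0e⟩) h10
            refine pole l0.1 hl0.1 hη0 hζ0 hDe P0.natDegree P0 (c j1) le_rfl hP00 ?_
            rw [← h9]
            ring
    intro c hc hz
    exact key _ c (fun i hi => ⟨(hc i hi).1, by have := (hc i hi).2; omega⟩) hz le_rfl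

end Pool.Agent.U623.HK
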