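import Mathlib
import Pool.Agent.U623.HK.Indep
import Pool.Agent.U623.HC.Core

/-!
# Coloured words with a common uncoloured first part: the estimates
-/

set_option autoImplicit false

namespace Pool.Agent.U623.HK

open Filter Topology
open Pool.Agent.H447R2.MZ (H H_nil H_cons H_cons_zero H_cons_succ H_nonneg Adm val tendsto_H H_le_val)
open Pool.Agent.Q217.TT (ep ep_nil ep_self ep_succ ep_nonneg)
open Pool.Agent.U623.HC (wt wt_nonneg wt_step wd H_small H_len H_len_pos H_le_ut H_le_R tail wd_nonneg)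

/-- the exponents -/
def ex (w : List (ℕ × ℂ)) : List ℕ := w.map Prod.fst

/-- uncoloured letters -/
def lift (p : List ℕ) : List (ℕ × ℂ) := p.map fun a => (a, (1 : ℂ))

/-- coloured words: positive exponents, the numbers `z` are not zero and have absolute value at most one -/
def Col (w : List (ℕ × ℂ)) : Prop := ∀ l ∈ w, 1 ≤ l.1 ∧ l.2 ≠ 0 ∧ ‖l.2‖ ≤ 1

lemma norm_inv_nat (n a : ℕ) : ‖(((n : ℕ) : ℂ) ^ a)⁻¹‖ = ((n : ℝ) ^ a)⁻¹ := by
  rw [norm_inv, norm_pow, Complex.norm_natCast]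

lemma norm_Hc_le (w : List (ℕ × ℂ)) (hw : ∀ l ∈ w, ‖l.2‖ ≤ 1) (n : ℕ) : ‖Hc w n‖ ≤ H (ex w) n := by
  induction w generalizing n with
  | nil => rw [Hc_nil, ex, List.map_nil, H_nil]; simp
  | cons l w ih =>
    rw [Hc_cons, ex, List.map_cons, H_cons]
    refine (norm_sum_le _ _).trans (Finset.sum_le_sum fun m _ => ?_)
    rw [norm_mul, norm_mul, norm_inv_nat, norm_pow]
    have h1 : ‖l.2‖ ^ (m + 1) ≤ 1 := pow_le_one₀ (norm_nonneg _) (hw l List.mem_cons_self)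
    have h2 := ih (fun l' hl' => hw l' (List.mem_cons_of_mem _ hl')) m
    have h3 : ‖l.2‖ ^ (m + 1) * (((m + 1 : ℕ) : ℝ) ^ l.1)⁻¹ ≤ (((m + 1 : ℕ) : ℝ) ^ l.1)⁻¹ :=
      mul_le_of_le_one_left (by positivity) h1
    exact mul_le_mul h3 h2 (norm_nonneg _) (by positivity)

lemma norm_Hc_sub (w : List (ℕ × ℂ)) (hw : ∀ l ∈ w, ‖l.2‖ ≤ 1) {n N : ℕ} (h : n ≤ N) :
    ‖Hc w N - Hc w n‖ ≤ H (ex w) N - H (ex w) n := by
  cases w with
  | nil => rw [Hc_nil, Hc_nil, ex, List.map_nil, H_nil, H_nil]; simp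
  | cons l w =>
    rw [Hc_cons, Hc_cons, ex, List.map_cons, H_cons, H_cons, ← Finset.sum_range_add_sum_Ico _ h,
      ← Finset.sum_range_add_sum_Ico (fun n => (((n + 1 : ℕ) : ℝ) ^ l.1)⁻¹ * H (List.map Prod.fst w) n) h,
      add_sub_cancel_left, add_sub_cancel_left]
    refine (norm_sum_le _ _).trans (Finset.sum_le_sum fun m _ => ?_)
    rw [norm_mul, norm_mul, norm_inv_nat, norm_pow]
    have h1 : ‖l.2‖ ^ (m + 1) ≤ 1 := pow_le_one₀ (norm_nonneg _) (hw l List.mem_cons_self)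
    have h2 := norm_Hc_le w (fun l' hl' => hw l' (List.mem_cons_of_mem _ hl')) m
    have h3 : ‖l.2‖ ^ (m + 1) * (((m + 1 : ℕ) : ℝ) ^ l.1)⁻¹ ≤ (((m + 1 : ℕ) : ℝ) ^ l.1)⁻¹ :=
      mul_le_of_le_one_left (by positivity) h1
    exact mul_le_mul h3 h2 (norm_nonneg _) (by positivity)

/-- the value of a coloured word: the limit of the truncated sums -/
noncomputable def mli (w : List (ℕ × ℂ)) : ℂ := limUnder atTop (Hc w)

lemma tendsto_Hc (w : List (ℕ × ℂ)) (hw : ∀ l ∈ w, ‖l.2‖ ≤ 1) (ha : Adm (ex w)) :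
    Tendsto (Hc w) atTop (𝓝 (mli w)) := by
  have h1 : CauchySeq (Hc w) := by
    have h2 := (tendsto_H (ex w) ha).cauchySeq
    rw [Metric.cauchySeq_iff'] at h2 ⊢
    intro ε hε
    obtain ⟨N, hN⟩ := h2 ε hε
    refine ⟨N, fun n hn => ?_⟩
    rw [dist_eq_norm]
    refine lt_of_le_of_lt (norm_Hc_sub w hw hn) (lt_of_le_of_lt (le_abs_self _) ?_)
    have := hN n hn
    rwa [Real.dist_eq] at this
  exact h1.tendsto_limUnder

/-- the coloured sum of `p s v` -/
lemma Hc_app (v : List (ℕ × ℂ)) (s : ℕ) (p : List ℕ) (N : ℕ) : Hc (lift p ++ (s, 1) :: v) N =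
    ∑ n ∈ Finset.range N, Hc v n * ((((((n + 1 : ℕ) : ℝ) ^ s)⁻¹ * ep p (n + 1) N : ℝ)) : ℂ) := by
  induction p generalizing N with
  | nil =>
    rw [lift, List.map_nil, List.nil_append, Hc_cons]
    refine Finset.sum_congr rfl fun n _ => ?_
    rw [ep_nil]
    push_cast
    ring
  | cons t p ih =>
    have e1 : lift (t :: p) ++ (s, (1 : ℂ)) :: v = (t, (1 : ℂ)) :: (lift p ++ (s, 1) :: v) := by
      rw [lift, List.map_cons, List.cons_append, ← lift]
    rw [e1]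
    induction N with
    | zero => rw [Hc_cons]; simp
    | succ N ihN =>
      rw [Hc_succ, ihN, ih N, Finset.sum_range_succ, ep_self, mul_zero, Complex.ofReal_zero, mul_zero, add_zero,
        Finset.mul_sum, ← Finset.sum_add_distrib]
      refine Finset.sum_congr rfl fun n hn => ?_
      rw [ep_succ t p (by have := Finset.mem_range.1 hn; omega : n + 1 ≤ N)]
      push_cast
      ring

lemma Hc_split (q : List ℕ) (s : ℕ) (v : List (ℕ × ℂ)) (N : ℕ) :
    Hc (lift (q ++ [s]) ++ v) N = ∑ n ∈ Finset.range N, Hc v n * ((wt q s N n : ℝ) : ℂ) := by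
  have e1 : lift (q ++ [s]) ++ v = lift q ++ (s, (1 : ℂ)) :: v := by
    rw [lift, List.map_append, List.append_assoc]
    rfl
  rw [e1, Hc_app]
  rfl

/-- the first nonzero value dominates, complex values -/
lemma estC (w : ℕ → ℝ) (F : ℕ → ℂ) (N l R n0 : ℕ) {r C : ℝ} (hw : ∀ n, 0 ≤ w n) (hr0 : 0 < r) (hC : 0 ≤ C)
    (hstep : ∀ n : ℕ, n + 2 ≤ N → ((n : ℝ) + 2 + r) * w (n + 1) ≤ ((n : ℝ) + 1) * w n)
    (hr : 2 * ((R : ℝ) + l) * (1 + l) ≤ r) (hF : ∀ n, ‖F n‖ ≤ C * (Nat.choose (n + R) (l + R) : ℝ))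
    (hF0 : ∀ n < n0, F n = 0) (hl : l ≤ n0) (hN : n0 + 1 ≤ N) :
    ‖∑ n ∈ Finset.range N, F n * ((w n : ℝ) : ℂ) - F n0 * ((w n0 : ℝ) : ℂ)‖ ≤
      C * (2 * ((n0 : ℝ) + 1) / r) * (Nat.choose (n0 + 1 + R) (l + R) : ℝ) * w n0 := by
  have hsplit : ∑ n ∈ Finset.range N, F n * ((w n : ℝ) : ℂ) - F n0 * ((w n0 : ℝ) : ℂ) =
      ∑ n ∈ Finset.Ico (n0 + 1) N, F n * ((w n : ℝ) : ℂ) := by
    rw [← Finset.sum_range_add_sum_Ico _ hN, Finset.sum_range_succ,
      Finset.sum_eq_zero (s := Finset.range n0) fun n hn => by rw [hF0 n (Finset.mem_range.1 hn), zero_mul]]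
    ring
  rw [hsplit]
  have h1 : ‖∑ n ∈ Finset.Ico (n0 + 1) N, F n * ((w n : ℝ) : ℂ)‖ ≤
      C * ∑ n ∈ Finset.Ico (n0 + 1) N, w n * (Nat.choose (n + R) (l + R) : ℝ) := by
    refine (norm_sum_le _ _).trans ?_
    rw [Finset.mul_sum]
    refine Finset.sum_le_sum fun n _ => ?_
    rw [norm_mul, Complex.norm_real, Real.norm_eq_abs, abs_of_nonneg (hw n)]
    calc ‖F n‖ * w n ≤ C * (Nat.choose (n + R) (l + R) : ℝ) * w n := mul_le_mul_of_nonneg_right (hF n) (hw n)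
      _ = _ := by ring
  refine h1.trans ?_
  have hw0 := hw n0
  rcases Nat.lt_or_ge (n0 + 1) N with h | h
  · have h2 := tail w N l R hw hr0 hstep hr (N - (n0 + 2)) (n0 + 1) (by omega) (by omega)
    have h3 := hstep n0 (by omega)
    have hc : (0 : ℝ) ≤ (Nat.choose (n0 + 1 + R) (l + R) : ℝ) := Nat.cast_nonneg _
    have h4 : 2 * (((n0 + 1 : ℕ) : ℝ) + 1 + r) / r * (w (n0 + 1) * (Nat.choose (n0 + 1 + R) (l + R) : ℝ)) ≤
        2 * ((n0 : ℝ) + 1) / r * (Nat.choose (n0 + 1 + R) (l + R) : ℝ) * w n0 := by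
      push_cast
      have h5 : 2 * ((n0 : ℝ) + 1 + 1 + r) / r * (w (n0 + 1) * (Nat.choose (n0 + 1 + R) (l + R) : ℝ)) =
          2 / r * (((n0 : ℝ) + 2 + r) * w (n0 + 1)) * (Nat.choose (n0 + 1 + R) (l + R) : ℝ) := by
        field_simp
        ring
      rw [h5]
      have h6 : 2 * ((n0 : ℝ) + 1) / r * (Nat.choose (n0 + 1 + R) (l + R) : ℝ) * w n0 =
          2 / r * (((n0 : ℝ) + 1) * w n0) * (Nat.choose (n0 + 1 + R) (l + R) : ℝ) := by ring
      rw [h6]
      exact mul_le_mul_of_nonneg_right (mul_le_mul_of_nonneg_left h3 (by positivity)) hc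
    calc C * ∑ n ∈ Finset.Ico (n0 + 1) N, w n * (Nat.choose (n + R) (l + R) : ℝ)
        ≤ C * (2 * ((n0 : ℝ) + 1) / r * (Nat.choose (n0 + 1 + R) (l + R) : ℝ) * w n0) :=
          mul_le_mul_of_nonneg_left (h2.trans h4) hC
      _ = _ := by ring
  · rw [Finset.Ico_eq_empty (by omega), Finset.sum_empty, mul_zero]
    positivity

/-- independence of the coloured sums over the complex numbers -/
lemma indepC (U : Finset (List (ℕ × ℂ))) (hU : ∀ u ∈ U, Col u) (c : List (ℕ × ℂ) → ℂ)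
    (h : ∀ n, ∑ u ∈ U, c u * Hc u n = 0) : ∀ u ∈ U, c u = 0 := by
  classical
  obtain ⟨t, ht⟩ : ∃ t, ∀ u ∈ U, u.length < t := by
    refine ⟨∑ u ∈ U, u.length + 1, fun u hu => ?_⟩
    have := Finset.single_le_sum (f := fun u : List (ℕ × ℂ) => u.length) (fun _ _ => Nat.zero_le _) hu
    omega
  set d : Ix →₀ Polynomial ℂ := ∑ u ∈ U, Finsupp.single ((1 : ℂ), u) (Polynomial.C (c u)) with hd
  have hdapp : ∀ u ∈ U, d ((1 : ℂ), u) = Polynomial.C (c u) := by
    intro u hu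
    rw [hd, Finsupp.finsetSum_apply, Finset.sum_eq_single u]
    · rw [Finsupp.single_apply, if_pos rfl]
    · intro v _ hv
      rw [Finsupp.single_apply, if_neg]
      intro h1
      exact hv (Prod.mk.inj h1).2
    · intro h1
      exact absurd hu h1
  have hd0 : d = 0 := by
    refine indep t d (fun i hi => ?_) ⟨0, fun n _ => ?_⟩
    · have h1 : ∃ u ∈ U, i = ((1 : ℂ), u) := by
        by_contra h2
        push Not at h2
        rw [Finsupp.mem_support_iff] at hi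
        apply hi
        rw [hd, Finsupp.finsetSum_apply]
        refine Finset.sum_eq_zero fun u hu => ?_
        rw [Finsupp.single_apply, if_neg]
        intro h3
        exact h2 u hu h3.symm
      obtain ⟨u, hu, rfl⟩ := h1
      exact ⟨⟨one_ne_zero, fun l hl => ⟨(hU u hu l hl).1, (hU u hu l hl).2.1⟩⟩, ht u hu⟩
    · rw [hd, map_sum]
      rw [← h n]
      refine Finset.sum_congr rfl fun u _ => ?_
      rw [ev_single, FI, Polynomial.eval_C, one_pow, one_mul]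
  intro u hu
  have h1 := hdapp u hu
  rw [hd0, Finsupp.zero_apply] at h1
  exact Polynomial.C_eq_zero.1 h1.symm

/-- finitely many values -/
lemma indepC_fin (U : Finset (List (ℕ × ℂ))) (hU : ∀ u ∈ U, Col u) : ∃ M : ℕ, ∀ c : List (ℕ × ℂ) → ℂ,
    (∃ u ∈ U, c u ≠ 0) → ∃ n ≤ M, ∑ u ∈ U, c u * Hc u n ≠ 0 := by
  classical
  let K : ℕ → Submodule ℂ (U → ℂ) := fun M =>
    { carrier := {c | ∀ n ≤ M, ∑ u : U, c u * Hc u.1 n = 0}
      zero_mem' := by intro n _; simp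
      add_mem' := by
        intro a b ha hb n hn
        simp only [Pi.add_apply, add_mul, Finset.sum_add_distrib]
        rw [ha n hn, hb n hn, add_zero]
      smul_mem' := by
        intro q a ha n hn
        simp only [Pi.smul_apply, smul_eq_mul, mul_assoc]
        rw [← Finset.mul_sum, ha n hn, mul_zero] }
  let F : ℕ →o (Submodule ℂ (U → ℂ))ᵒᵈ :=
    ⟨fun M => OrderDual.toDual (K M), fun a b hab c hc n hn => hc n (hn.trans hab)⟩
  obtain ⟨M, hM⟩ := IsArtinian.monotone_stabilizes F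
  refine ⟨M, fun c hc => ?_⟩
  by_contra hcon
  push Not at hcon
  obtain ⟨u, hu, hcu⟩ := hc
  apply hcu
  have h1 : (fun u : U => c u.1) ∈ K M := by
    intro n hn
    rw [← hcon n hn, ← Finset.sum_coe_sort U]
  refine indepC U hU c (fun n => ?_) u hu
  have h2 : K M = K (max M n) := hM (max M n) (le_max_left _ _)
  rw [h2] at h1
  have h3 := h1 n (le_max_right _ _)
  rw [← h3, ← Finset.sum_coe_sort U]

end Pool.Agent.U623.HK
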