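import Mathlib
import Pool.Agent.U623.HK.Est

/-!
# Coloured words with a common uncoloured first part: the theorems
-/

set_option autoImplicit false

namespace Pool.Agent.U623.HK

open Filter Topology
open Pool.Agent.H447R2.MZ (H H_nil H_cons H_cons_zero H_cons_succ H_nonneg Adm val tendsto_H H_le_val)
open Pool.Agent.U623.HC (wt wt_nonneg wt_step wd H_small H_len H_len_pos H_le_ut H_le_R tail wd_nonneg est
  H_split wt_anti choose_bound)

lemma coreC {U : Finset (List (ℕ × ℂ))} (hU : ∀ u ∈ U, Col u) {c : List (ℕ × ℂ) → ℂ} {n0 R : ℕ}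
    (hR : ∀ u ∈ U, u.length ≤ R) (hz : ∀ n < n0, ∑ u ∈ U, c u * Hc u n = 0) (q : List ℕ) (b : ℕ)
    (hq : ∀ x ∈ q, 1 ≤ x) (N : ℕ) (hN : n0 + 1 ≤ N) (hρ : 0 < wd (q ++ [b + 1]))
    (hr : 2 * (R : ℝ) ≤ wd (q ++ [b + 1]))
    (hE : (∑ u ∈ U, ‖c u‖) * (2 * ((n0 : ℝ) + 1) / wd (q ++ [b + 1])) *
      (Nat.choose (n0 + 1 + R) R : ℝ) ≤ ‖∑ u ∈ U, c u * Hc u n0‖ / 2) :
    ‖∑ u ∈ U, c u * Hc u n0‖ / 2 * wt q (b + 1) N n0 ≤
      ‖∑ u ∈ U, c u * Hc (lift (q ++ [b + 1]) ++ u) N‖ := by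
  have hsum : ∑ u ∈ U, c u * Hc (lift (q ++ [b + 1]) ++ u) N =
      ∑ n ∈ Finset.range N, (∑ u ∈ U, c u * Hc u n) * ((wt q (b + 1) N n : ℝ) : ℂ) := by
    rw [Finset.sum_congr rfl fun (u : List (ℕ × ℂ)) _ => by rw [Hc_split, Finset.mul_sum], Finset.sum_comm]
    refine Finset.sum_congr rfl fun n _ => ?_
    rw [Finset.sum_mul]
    exact Finset.sum_congr rfl fun u _ => by ring
  have hF : ∀ n, ‖∑ u ∈ U, c u * Hc u n‖ ≤ (∑ u ∈ U, ‖c u‖) * (Nat.choose (n + R) (0 + R) : ℝ) := by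
    intro n
    refine (norm_sum_le _ _).trans ?_
    rw [Finset.sum_mul]
    refine Finset.sum_le_sum fun u hu => ?_
    rw [norm_mul]
    refine mul_le_mul_of_nonneg_left ?_ (norm_nonneg _)
    have h1 := norm_Hc_le u (fun l hl => (hU u hu l hl).2.2) n
    have h2 := H_le_R (ex u) [] R (by rw [ex, List.length_map]; exact hR u hu) n
    rw [List.append_nil, H_nil, one_mul, List.length_nil] at h2
    exact h1.trans h2
  have hC : 0 ≤ ∑ u ∈ U, ‖c u‖ := Finset.sum_nonneg fun u _ => norm_nonneg _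
  have h1 := estC (wt q (b + 1) N) (fun n => ∑ u ∈ U, c u * Hc u n) N 0 R n0 (wt_nonneg q (b + 1) N) hρ hC
    (fun n hn => wt_step q b hq N n hn) (by simpa using hr) hF hz (Nat.zero_le _) hN
  simp only [zero_add] at h1
  rw [← hsum] at h1
  have hw := wt_nonneg q (b + 1) N n0
  have h2 : (∑ u ∈ U, ‖c u‖) * (2 * ((n0 : ℝ) + 1) / wd (q ++ [b + 1])) *
      (Nat.choose (n0 + 1 + R) R : ℝ) * wt q (b + 1) N n0 ≤
      ‖∑ u ∈ U, c u * Hc u n0‖ / 2 * wt q (b + 1) N n0 := mul_le_mul_of_nonneg_right hE hw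
  have h3 := norm_sub_norm_le ((∑ u ∈ U, c u * Hc u n0) * ((wt q (b + 1) N n0 : ℝ) : ℂ))
    (∑ u ∈ U, c u * Hc (lift (q ++ [b + 1]) ++ u) N)
  rw [norm_sub_rev, norm_mul, Complex.norm_real, Real.norm_eq_abs, abs_of_nonneg hw] at h3
  have h4 := h3.trans (h1.trans h2)
  linarith

lemma upper0 (M : ℕ) (q : List ℕ) (b : ℕ) (hq : ∀ x ∈ q, 1 ≤ x) (N : ℕ) (hN : M + 1 ≤ N)
    (hρ : 0 < wd (q ++ [b + 1])) (hr : 2 * (M : ℝ) ≤ wd (q ++ [b + 1]))
    (hE : 2 * ((M : ℝ) + 1) / wd (q ++ [b + 1]) * (Nat.choose (M + 1 + M) M : ℝ) ≤ 1) :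
    H (q ++ [b + 1] ++ List.replicate M 2) N ≤ 2 * wt q (b + 1) N M := by
  have hF : ∀ n, |H (List.replicate M 2) n| ≤ 1 * (Nat.choose (n + M) (0 + M) : ℝ) := by
    intro n
    rw [abs_of_nonneg (H_nonneg _ n)]
    have h1 := H_le_R (List.replicate M 2) [] M (by simp) n
    rw [List.append_nil, H_nil, List.length_nil] at h1
    exact h1
  have hF0 : ∀ n < M, H (List.replicate M 2) n = 0 := by
    intro n hn
    exact H_small _ n (by rw [List.length_replicate]; exact hn)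
  have h1 := est (wt q (b + 1) N) (H (List.replicate M 2)) N 0 M M (wt_nonneg q (b + 1) N) hρ
    zero_le_one (fun n hn => wt_step q b hq N n hn) (by simpa using hr) hF hF0 (Nat.zero_le _) hN
  rw [← H_split] at h1
  have hw := wt_nonneg q (b + 1) N M
  have h2 : H (List.replicate M 2) M ≤ 1 := by
    have h3 := H_le_ut (List.replicate M 2) [] M
    rw [List.append_nil, H_nil, List.length_nil, List.length_replicate, add_zero, Nat.choose_self] at h3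
    simpa using h3
  have h4 : 1 * (2 * ((M : ℝ) + 1) / wd (q ++ [b + 1])) *
      (Nat.choose (M + 1 + M) (0 + M) : ℝ) * wt q (b + 1) N M ≤ 1 * wt q (b + 1) N M := by
    refine mul_le_mul_of_nonneg_right ?_ hw
    rw [one_mul, zero_add]
    exact hE
  have h5 := (le_abs_self _).trans (h1.trans h4)
  have h6 := mul_le_mul_of_nonneg_right h2 hw
  linarith

/-- `p` is a nonempty admissible word -/
def First (p : List ℕ) : Prop := p ≠ [] ∧ (∀ x ∈ p, 1 ≤ x) ∧ (∀ a q, p = a :: q → 2 ≤ a)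

lemma adm_first {p : List ℕ} (h : First p) (v : List ℕ) (hv : ∀ x ∈ v, 1 ≤ x) : Adm (p ++ v) := by
  obtain ⟨hp, h1, h2⟩ := h
  refine ⟨fun x hx => ?_, fun a s hs => ?_⟩
  · rcases List.mem_append.1 hx with h | h
    · exact h1 x h
    · exact hv x h
  · cases p with
    | nil => exact absurd rfl hp
    | cons b q =>
      rw [List.cons_append] at hs
      rw [← (List.cons.inj hs).1]
      exact h2 b q rfl

lemma ex_app (p : List ℕ) (u : List (ℕ × ℂ)) : ex (lift p ++ u) = p ++ ex u := by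
  rw [ex, ex, lift, List.map_append, List.map_map]
  congr 1
  induction p with
  | nil => rfl
  | cons a p ih => rw [List.map_cons, ih]; rfl

lemma conv {p : List ℕ} (h : First p) {u : List (ℕ × ℂ)} (hu : Col u) :
    Tendsto (Hc (lift p ++ u)) atTop (𝓝 (mli (lift p ++ u))) := by
  refine tendsto_Hc _ (fun l hl => ?_) ?_
  · rcases List.mem_append.1 hl with h1 | h1
    · rw [lift, List.mem_map] at h1
      obtain ⟨a, _, rfl⟩ := h1
      simp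
    · exact (hu l h1).2.2
  · rw [ex_app]
    refine adm_first h _ fun x hx => ?_
    rw [ex, List.mem_map] at hx
    obtain ⟨l, hl, rfl⟩ := hx
    exact (hu l hl).1

/-- the estimate for the limits -/
lemma limC {U : Finset (List (ℕ × ℂ))} (hU : ∀ u ∈ U, Col u) {c : List (ℕ × ℂ) → ℂ} {n0 R M : ℕ}
    (hR : ∀ u ∈ U, u.length ≤ R) (hz : ∀ n < n0, ∑ u ∈ U, c u * Hc u n = 0) (hM : n0 ≤ M) {p : List ℕ}
    (hp : First p) (hρ : 0 < wd p) (hr : 2 * ((R : ℝ) + M) ≤ wd p)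
    (hE : (∑ u ∈ U, ‖c u‖) * (2 * ((n0 : ℝ) + 1) / wd p) *
      (Nat.choose (n0 + 1 + R) R : ℝ) ≤ ‖∑ u ∈ U, c u * Hc u n0‖ / 2)
    (hE2 : 2 * ((M : ℝ) + 1) / wd p * (Nat.choose (M + 1 + M) M : ℝ) ≤ 1) :
    0 < val (p ++ List.replicate M 2) ∧
    ‖∑ u ∈ U, c u * Hc u n0‖ / 4 * val (p ++ List.replicate M 2) ≤
      ‖∑ u ∈ U, c u * mli (lift p ++ u)‖ := by
  have h2 : ∀ x ∈ List.replicate M 2, 1 ≤ x := by
    intro x hx
    rw [(List.mem_replicate.1 hx).2]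
    norm_num
  have hadm := adm_first hp _ h2
  constructor
  · exact lt_of_lt_of_le (H_len_pos _) (H_le_val _ hadm _)
  obtain ⟨q, s, rfl⟩ : ∃ q s, p = q ++ [s] := by
    rcases List.eq_nil_or_concat p with rfl | ⟨q, s, rfl⟩
    · exact absurd rfl hp.1
    · exact ⟨q, s, List.concat_eq_append⟩
  obtain ⟨b, rfl⟩ : ∃ b, s = b + 1 := ⟨s - 1, by have := hp.2.1 s (by simp); omega⟩
  have hq : ∀ x ∈ q, 1 ≤ x := fun x hx => hp.2.1 x (by simp [hx])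
  have htend : Tendsto (fun N => ‖∑ u ∈ U, c u * Hc (lift (q ++ [b + 1]) ++ u) N‖) atTop
      (𝓝 ‖∑ u ∈ U, c u * mli (lift (q ++ [b + 1]) ++ u)‖) :=
    (tendsto_finsetSum _ fun u hu => (conv hp (hU u hu)).const_mul _).norm
  have htend2 : Tendsto (fun N => ‖∑ u ∈ U, c u * Hc u n0‖ / 4 * H (q ++ [b + 1] ++ List.replicate M 2) N) atTop
      (𝓝 (‖∑ u ∈ U, c u * Hc u n0‖ / 4 * val (q ++ [b + 1] ++ List.replicate M 2))) :=
    (tendsto_H _ hadm).const_mul _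
  refine le_of_tendsto_of_tendsto htend2 htend ?_
  filter_upwards [eventually_ge_atTop (M + 1)] with N hN
  have hR0 : (0 : ℝ) ≤ R := Nat.cast_nonneg _
  have hM0 : (0 : ℝ) ≤ M := Nat.cast_nonneg _
  have hA := coreC hU hR hz q b hq N (by omega) hρ (by linarith) hE
  have hB := upper0 M q b hq N hN hρ (by linarith) hE2
  have hw := wt_anti q b hq N n0 M hM hN hρ.le
  have hv : 0 ≤ ‖∑ u ∈ U, c u * Hc u n0‖ := norm_nonneg _
  refine le_trans ?_ hA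
  calc ‖∑ u ∈ U, c u * Hc u n0‖ / 4 * H (q ++ [b + 1] ++ List.replicate M 2) N
      ≤ ‖∑ u ∈ U, c u * Hc u n0‖ / 4 * (2 * wt q (b + 1) N n0) :=
        mul_le_mul_of_nonneg_left (hB.trans (mul_le_mul_of_nonneg_left hw (by norm_num))) (by positivity)
    _ = _ := by ring

/-- denominators -/
lemma den (O : Subring ℂ) (A : ℕ) (w : List (ℕ × ℂ)) (hA : ∀ l ∈ w, l.1 ≤ A) (hO : ∀ l ∈ w, l.2 ∈ O) (n : ℕ) :
    Hc w n * ((n.factorial : ℕ) : ℂ) ^ A ∈ O := by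
  induction w generalizing n with
  | nil => rw [Hc_nil, one_mul]; exact O.pow_mem (natCast_mem O _) _
  | cons l w ih =>
    rw [Hc_cons, Finset.sum_mul]
    refine O.sum_mem fun m hm => ?_
    have hm' := Finset.mem_range.1 hm
    obtain ⟨K, hK⟩ := Nat.factorial_dvd_factorial (by omega : m + 1 ≤ n)
    have h1 : l.1 ≤ A := hA l List.mem_cons_self
    have hm0 : ((m + 1 : ℕ) : ℂ) ≠ 0 := by exact_mod_cast (by omega : m + 1 ≠ 0)
    have h2 : ((n.factorial : ℕ) : ℂ) ^ A = ((m + 1 : ℕ) : ℂ) ^ l.1 * ((m + 1 : ℕ) : ℂ) ^ (A - l.1) *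
        ((m.factorial : ℕ) : ℂ) ^ A * (K : ℂ) ^ A := by
      rw [hK, Nat.factorial_succ, ← pow_add, Nat.add_sub_cancel' h1, Nat.cast_mul, Nat.cast_mul, mul_pow,
        mul_pow]
    have h3 : l.2 ^ (m + 1) * (((m + 1 : ℕ) : ℂ) ^ l.1)⁻¹ * Hc w m * ((n.factorial : ℕ) : ℂ) ^ A =
        l.2 ^ (m + 1) * ((m + 1 : ℕ) : ℂ) ^ (A - l.1) * (Hc w m * ((m.factorial : ℕ) : ℂ) ^ A) * (K : ℂ) ^ A := by
      rw [h2]
      have : ((m + 1 : ℕ) : ℂ) ^ l.1 ≠ 0 := pow_ne_zero _ hm0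
      field_simp
    rw [h3]
    refine O.mul_mem (O.mul_mem (O.mul_mem (O.pow_mem (hO l List.mem_cons_self) _) ?_) ?_) ?_
    · exact O.pow_mem (natCast_mem O _) _
    · exact ih (fun l' hl' => hA l' (List.mem_cons_of_mem _ hl')) (fun l' hl' => hO l' (List.mem_cons_of_mem _ hl')) m
    · exact O.pow_mem (natCast_mem O _) _

/-- the first nonzero value -/
lemma firstC (U : Finset (List (ℕ × ℂ))) (hU : ∀ u ∈ U, Col u) : ∃ M : ℕ, ∀ c : List (ℕ × ℂ) → ℂ,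
    (∃ u ∈ U, c u ≠ 0) → ∃ n0 ≤ M, (∀ n < n0, ∑ u ∈ U, c u * Hc u n = 0) ∧ ∑ u ∈ U, c u * Hc u n0 ≠ 0 := by
  classical
  obtain ⟨M, hM⟩ := indepC_fin U hU
  refine ⟨M, fun c hc => ?_⟩
  obtain ⟨n, hn, hne⟩ := hM c hc
  have hex : ∃ n, ∑ u ∈ U, c u * Hc u n ≠ 0 := ⟨n, hne⟩
  refine ⟨Nat.find hex, (Nat.find_min' hex hne).trans hn, fun m hm => ?_, Nat.find_spec hex⟩
  by_contra h
  exact Nat.find_min hex hm h

/-- **Theorem.** -/
theorem mainC (U : Finset (List (ℕ × ℂ))) (hU : ∀ u ∈ U, Col u) : ∃ M : ℕ,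
    (∀ c : List (ℕ × ℂ) → ℂ, (∃ u ∈ U, c u ≠ 0) → ∃ κ : ℝ, 0 < κ ∧ ∃ r0 : ℕ, ∀ p : List ℕ, First p →
      r0 + p.length ≤ p.sum → 0 < val (p ++ List.replicate M 2) ∧
      κ * val (p ++ List.replicate M 2) ≤ ‖∑ u ∈ U, c u * mli (lift p ++ u)‖) ∧
    (∀ O : Subring ℂ, (∀ x ∈ O, x ≠ 0 → 1 ≤ ‖x‖) → (∀ u ∈ U, ∀ l ∈ u, l.2 ∈ O) → ∃ κ : ℝ, 0 < κ ∧
      ∀ p : List ℕ, First p → ∀ c : List (ℕ × ℂ) → ℂ, (∀ u ∈ U, c u ∈ O) → (∃ u ∈ U, c u ≠ 0) →
      (∀ u ∈ U, ‖c u‖ ≤ κ * ((p.sum : ℝ) - p.length)) → 0 < val (p ++ List.replicate M 2) ∧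
      κ * val (p ++ List.replicate M 2) ≤ ‖∑ u ∈ U, c u * mli (lift p ++ u)‖) := by
  classical
  obtain ⟨M, hM⟩ := firstC U hU
  obtain ⟨R, hR⟩ : ∃ R, ∀ u ∈ U, u.length ≤ R :=
    ⟨∑ u ∈ U, u.length, fun u hu =>
      Finset.single_le_sum (f := fun u : List (ℕ × ℂ) => u.length) (fun _ _ => Nat.zero_le _) hu⟩
  -- bounds
  have hG0 : (0 : ℝ) ≤ (Nat.choose (2 * M + 1 + R) R : ℝ) := Nat.cast_nonneg _
  have hch : ∀ n0 ≤ M, (Nat.choose (n0 + 1 + R) R : ℝ) ≤ (Nat.choose (M + 1 + R) R : ℝ) := by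
    intro n0 h
    exact_mod_cast Nat.choose_le_choose _ (by omega)
  set G : ℝ := 2 * ((M : ℝ) + 1) * (Nat.choose (M + 1 + R) R : ℝ) with hG
  have hG1 : 0 ≤ G := by rw [hG]; positivity
  set G2 : ℝ := 2 * ((M : ℝ) + 1) * (Nat.choose (M + 1 + M) M : ℝ) with hG2
  have hG21 : 0 ≤ G2 := by rw [hG2]; positivity
  have hR0 : (0 : ℝ) ≤ R := Nat.cast_nonneg _
  have hM0 : (0 : ℝ) ≤ M := Nat.cast_nonneg _
  have hgen : ∀ (c : List (ℕ × ℂ) → ℂ) (n0 : ℕ), n0 ≤ M → (∀ n < n0, ∑ u ∈ U, c u * Hc u n = 0) →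
      ∀ p : List ℕ, First p → 0 < wd p → 2 * ((R : ℝ) + M) + G2 ≤ wd p →
      (∑ u ∈ U, ‖c u‖) * G ≤ ‖∑ u ∈ U, c u * Hc u n0‖ / 2 * wd p →
      0 < val (p ++ List.replicate M 2) ∧
      ‖∑ u ∈ U, c u * Hc u n0‖ / 4 * val (p ++ List.replicate M 2) ≤
        ‖∑ u ∈ U, c u * mli (lift p ++ u)‖ := by
    intro c n0 hn0 hz p hp hρ h1 h2
    refine limC hU hR hz hn0 hp hρ (by linarith) ?_ ?_
    · have h3 : (∑ u ∈ U, ‖c u‖) * (2 * ((n0 : ℝ) + 1) / wd p) * (Nat.choose (n0 + 1 + R) R : ℝ) ≤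
          (∑ u ∈ U, ‖c u‖) * G / wd p := by
        have h4 : 2 * ((n0 : ℝ) + 1) * (Nat.choose (n0 + 1 + R) R : ℝ) ≤ G := by
          rw [hG]
          have h5 : (n0 : ℝ) ≤ M := by exact_mod_cast hn0
          exact mul_le_mul (by linarith) (hch n0 hn0) (by positivity) (by positivity)
        have hS : 0 ≤ ∑ u ∈ U, ‖c u‖ := Finset.sum_nonneg fun u _ => norm_nonneg _
        calc (∑ u ∈ U, ‖c u‖) * (2 * ((n0 : ℝ) + 1) / wd p) * (Nat.choose (n0 + 1 + R) R : ℝ)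
            = (∑ u ∈ U, ‖c u‖) * (2 * ((n0 : ℝ) + 1) * (Nat.choose (n0 + 1 + R) R : ℝ)) / wd p := by ring
          _ ≤ _ := div_le_div_of_nonneg_right (mul_le_mul_of_nonneg_left h4 hS) hρ.le
      refine h3.trans ?_
      rw [div_le_iff₀ hρ]
      exact h2
    · have h3 : 2 * ((M : ℝ) + 1) / wd p * (Nat.choose (M + 1 + M) M : ℝ) = G2 / wd p := by rw [hG2]; ring
      rw [h3, div_le_one hρ]
      linarith
  refine ⟨M, ?_, ?_⟩
  · intro c hc
    obtain ⟨n0, hn0, hz, hne⟩ := hM c hc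
    have hv : 0 < ‖∑ u ∈ U, c u * Hc u n0‖ := norm_pos_iff.2 hne
    obtain ⟨r0, hr0⟩ := exists_nat_ge (2 * ((R : ℝ) + M) + G2 + 1 +
      (∑ u ∈ U, ‖c u‖) * G / (‖∑ u ∈ U, c u * Hc u n0‖ / 2))
    refine ⟨‖∑ u ∈ U, c u * Hc u n0‖ / 4, by positivity, r0, fun p hp hpr => ?_⟩
    have hS : 0 ≤ ∑ u ∈ U, ‖c u‖ := Finset.sum_nonneg fun u _ => norm_nonneg _
    have h1 : 0 ≤ (∑ u ∈ U, ‖c u‖) * G / (‖∑ u ∈ U, c u * Hc u n0‖ / 2) := by positivity
    have h2 : (r0 : ℝ) ≤ wd p := by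
      rw [wd]
      have h3 : ((r0 + p.length : ℕ) : ℝ) ≤ (p.sum : ℝ) := by exact_mod_cast hpr
      rw [Nat.cast_add] at h3
      linarith
    refine hgen c n0 hn0 hz p hp (by linarith) (by linarith) ?_
    have h4 : (∑ u ∈ U, ‖c u‖) * G / (‖∑ u ∈ U, c u * Hc u n0‖ / 2) ≤ wd p := by linarith
    rw [div_le_iff₀ (by positivity)] at h4
    linarith
  · intro O hO hUO
    obtain ⟨A, hA⟩ : ∃ A, ∀ u ∈ U, ∀ l ∈ u, l.1 ≤ A := by
      refine ⟨∑ u ∈ U, (u.map Prod.fst).sum, fun u hu l hl => ?_⟩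
      refine (List.le_sum_of_mem (List.mem_map_of_mem hl)).trans ?_
      exact Finset.single_le_sum (f := fun u : List (ℕ × ℂ) => (u.map Prod.fst).sum)
        (fun _ _ => Nat.zero_le _) hu
    set Δ : ℝ := ((M.factorial : ℕ) : ℝ) ^ A with hΔ
    have hΔ1 : 1 ≤ Δ := one_le_pow₀ (by exact_mod_cast Nat.one_le_iff_ne_zero.2 (Nat.factorial_ne_zero M))
    set D : ℝ := (2 * ((R : ℝ) + M) + G2 + 1) * (2 * Δ * (G + 1)) * ((U.card : ℝ) + 1) + 4 * Δ with hD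
    have hU0 : (0 : ℝ) ≤ (U.card : ℝ) := Nat.cast_nonneg _
    have hD0 : 0 < D := by rw [hD]; positivity
    refine ⟨1 / D, by positivity, fun p hp c hcO hc hcb => ?_⟩
    obtain ⟨n0, hn0, hz, hne⟩ := hM c hc
    have hlow : 1 / Δ ≤ ‖∑ u ∈ U, c u * Hc u n0‖ := by
      have h1 : (∑ u ∈ U, c u * Hc u n0) * ((n0.factorial : ℕ) : ℂ) ^ A ∈ O := by
        rw [Finset.sum_mul]
        refine O.sum_mem fun u hu => ?_
        rw [mul_assoc]
        exact O.mul_mem (hcO u hu) (den O A u (hA u hu) (hUO u hu) n0)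
      have hf : ((n0.factorial : ℕ) : ℂ) ^ A ≠ 0 :=
        pow_ne_zero _ (by exact_mod_cast Nat.factorial_ne_zero n0)
      have h2 := hO _ h1 (mul_ne_zero hne hf)
      rw [norm_mul, norm_pow, Complex.norm_natCast] at h2
      have h3 : ((n0.factorial : ℕ) : ℝ) ^ A ≤ Δ :=
        pow_le_pow_left₀ (by positivity) (by exact_mod_cast Nat.factorial_le hn0) _
      rw [div_le_iff₀ (by linarith)]
      exact h2.trans (mul_le_mul_of_nonneg_left h3 (norm_nonneg _))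
    obtain ⟨u1, hu1, hcu1⟩ := hc
    have hw1 : 1 ≤ 1 / D * wd p := by
      have h1 := hcb u1 hu1
      have h2 := hO _ (hcO u1 hu1) hcu1
      rw [← wd] at h1
      exact h2.trans h1
    have hDw : D ≤ wd p := by
      rwa [one_div_mul_eq_div, le_div_iff₀ hD0, one_mul] at hw1
    have hρ : 0 < wd p := lt_of_lt_of_le hD0 hDw
    have hbig : 2 * ((R : ℝ) + M) + G2 ≤ D := by
      have h1 : (1 : ℝ) ≤ 2 * Δ * (G + 1) * ((U.card : ℝ) + 1) := by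
        refine one_le_mul_of_one_le_of_one_le (one_le_mul_of_one_le_of_one_le ?_ (by linarith)) (by linarith)
        linarith
      have h2 : 0 ≤ 2 * ((R : ℝ) + M) + G2 + 1 := by positivity
      have h3 : 2 * ((R : ℝ) + M) + G2 + 1 ≤
          (2 * ((R : ℝ) + M) + G2 + 1) * (2 * Δ * (G + 1) * ((U.card : ℝ) + 1)) := le_mul_of_one_le_right h2 h1
      rw [hD]
      have h4 : (2 * ((R : ℝ) + M) + G2 + 1) * (2 * Δ * (G + 1) * ((U.card : ℝ) + 1)) =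
        (2 * ((R : ℝ) + M) + G2 + 1) * (2 * Δ * (G + 1)) * ((U.card : ℝ) + 1) := by ring
      have h5 : 0 ≤ 4 * Δ := by linarith
      linarith
    have hS : (∑ u ∈ U, ‖c u‖) * G ≤ ‖∑ u ∈ U, c u * Hc u n0‖ / 2 * wd p := by
      have h1 : ∑ u ∈ U, ‖c u‖ ≤ U.card * (1 / D * wd p) := by
        calc ∑ u ∈ U, ‖c u‖ ≤ ∑ _u ∈ U, 1 / D * wd p := Finset.sum_le_sum fun u hu => by
              have := hcb u hu
              rwa [← wd] at this
          _ = _ := by rw [Finset.sum_const, nsmul_eq_mul]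
      have h2 : (∑ u ∈ U, ‖c u‖) * G ≤ U.card * (1 / D * wd p) * G := mul_le_mul_of_nonneg_right h1 hG1
      have h3 : (U.card : ℝ) * G * (2 * Δ) ≤ D := by
        have h4 : (U.card : ℝ) * G ≤ (G + 1) * ((U.card : ℝ) + 1) := by nlinarith
        have h5 : (1 : ℝ) ≤ 2 * ((R : ℝ) + M) + G2 + 1 := by linarith
        have h6 : (G + 1) * ((U.card : ℝ) + 1) * (2 * Δ) ≤
            (G + 1) * ((U.card : ℝ) + 1) * (2 * Δ) * (2 * ((R : ℝ) + M) + G2 + 1) :=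
          le_mul_of_one_le_right (by positivity) h5
        have h7 : (U.card : ℝ) * G * (2 * Δ) ≤ (G + 1) * ((U.card : ℝ) + 1) * (2 * Δ) :=
          mul_le_mul_of_nonneg_right h4 (by linarith)
        rw [hD]
        have h8 : (G + 1) * ((U.card : ℝ) + 1) * (2 * Δ) * (2 * ((R : ℝ) + M) + G2 + 1) =
          (2 * ((R : ℝ) + M) + G2 + 1) * (2 * Δ * (G + 1)) * ((U.card : ℝ) + 1) := by ring
        linarith
      have h9 : U.card * (1 / D * wd p) * G ≤ 1 / Δ / 2 * wd p := by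
        have h10 : U.card * (1 / D * wd p) * G = (U.card * G * (2 * Δ) / D) * (1 / Δ / 2 * wd p) := by
          field_simp
        rw [h10]
        exact mul_le_of_le_one_left (by positivity) ((div_le_one hD0).2 h3)
      exact h2.trans (h9.trans (mul_le_mul_of_nonneg_right (by linarith) hρ.le))
    obtain ⟨h1, h2⟩ := hgen c n0 hn0 hz p hp hρ (hbig.trans hDw) hS
    refine ⟨h1, le_trans (mul_le_mul_of_nonneg_right ?_ h1.le) h2⟩
    have h3 : 1 / D ≤ 1 / (4 * Δ) := by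
      apply one_div_le_one_div_of_le (by linarith)
      rw [hD]
      have : 0 ≤ (2 * ((R : ℝ) + M) + G2 + 1) * (2 * Δ * (G + 1)) * ((U.card : ℝ) + 1) := by positivity
      linarith
    have h4 : 1 / (4 * Δ) = 1 / Δ / 4 := by field_simp
    rw [h4] at h3
    linarith

end Pool.Agent.U623.HK
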