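import Mathlib
import Pool.Agent.U623.HK.Fin

/-!
# Coloured middle parts, uncoloured first and last parts
-/

set_option autoImplicit false

namespace Pool.Agent.U623.HK

open Filter Topology Polynomial
open Pool.Agent.H447R2.MZ (H H_nil H_cons H_cons_zero H_cons_succ H_nonneg Adm val tendsto_H H_le_val)
open Pool.Agent.U623.HC (wt wt_nonneg wt_step wd H_small H_len H_len_pos H_le_ut H_le_R tail wd_nonneg est
  H_split wt_anti choose_bound dl dl_pos dl_le upper)

/-- the part of a coloured sum between `M` and `N` -/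
noncomputable def epc : List (ℕ × ℂ) → ℕ → ℕ → ℂ
  | [], _, _ => 1
  | (l :: w), M, N => ∑ n ∈ Finset.Ico M N, l.2 ^ (n + 1) * (((n + 1 : ℕ) : ℂ) ^ l.1)⁻¹ * epc w M n

lemma epc_nil (M N : ℕ) : epc [] M N = 1 := by rw [epc]

lemma epc_self (l : ℕ × ℂ) (w : List (ℕ × ℂ)) (M : ℕ) : epc (l :: w) M M = 0 := by rw [epc]; simp

lemma epc_succ (l : ℕ × ℂ) (w : List (ℕ × ℂ)) {M N : ℕ} (h : M ≤ N) : epc (l :: w) M (N + 1) =
    epc (l :: w) M N + l.2 ^ (N + 1) * (((N + 1 : ℕ) : ℂ) ^ l.1)⁻¹ * epc w M N := by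
  rw [epc, Finset.sum_Ico_succ_top h, ← epc]

lemma epc_zero (w : List (ℕ × ℂ)) (N : ℕ) : epc w 0 N = Hc w N := by
  induction w generalizing N with
  | nil => rw [epc_nil, Hc_nil]
  | cons l w ih =>
    rw [epc, Hc_cons, Finset.range_eq_Ico]
    exact Finset.sum_congr rfl fun n _ => by rw [ih]

lemma Hc_lift (t : List ℕ) (n : ℕ) : Hc (lift t) n = ((H t n : ℝ) : ℂ) := by
  induction t generalizing n with
  | nil => rw [lift, List.map_nil, Hc_nil, H_nil, Complex.ofReal_one]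
  | cons a t ih =>
    rw [lift, List.map_cons, ← lift, Hc_cons, H_cons]
    push_cast
    refine Finset.sum_congr rfl fun m _ => ?_
    rw [ih m]
    simp

/-- the sum of `u y t` -/
lemma Hc_mid (y : ℕ) (t : List ℕ) (u : List (ℕ × ℂ)) (N : ℕ) : Hc (u ++ lift (y :: t)) N =
    ∑ n ∈ Finset.range N, ((H t n * (((n + 1 : ℕ) : ℝ) ^ y)⁻¹ : ℝ) : ℂ) * epc u (n + 1) N := by
  induction u generalizing N with
  | nil =>
    rw [List.nil_append, Hc_lift, H_cons]
    push_cast
    refine Finset.sum_congr rfl fun n _ => ?_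
    rw [epc_nil]
    ring
  | cons l u ih =>
    rw [List.cons_append]
    induction N with
    | zero => rw [Hc_cons]; simp
    | succ N ihN =>
      rw [Hc_succ, ihN, ih N, Finset.sum_range_succ, epc_self, mul_zero, add_zero,
        Finset.mul_sum, ← Finset.sum_add_distrib]
      refine Finset.sum_congr rfl fun n hn => ?_
      rw [epc_succ l u (by have := Finset.mem_range.1 hn; omega : n + 1 ≤ N)]
      ring

/-- the product of the colours -/
noncomputable def pr (u : List (ℕ × ℂ)) : ℂ := (u.map Prod.snd).prod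

lemma pr_cons (l : ℕ × ℂ) (u : List (ℕ × ℂ)) : pr (l :: u) = l.2 * pr u := by
  rw [pr, List.map_cons, List.prod_cons, ← pr]

lemma poly_epc (O : Subring ℂ) (A : ℕ) (u : List (ℕ × ℂ)) (hu : ∀ l ∈ u, l.1 ≤ A) (hO : ∀ l ∈ u, l.2 ∈ O) :
    ∀ j : ℕ, ∃ P : Polynomial O, ∀ k : ℕ,
      epc u k (k + j) * ((dl k j : ℝ) : ℂ) ^ A = pr u ^ k * ((P.eval ((k : ℕ) : O) : O) : ℂ) := by
  induction u with
  | nil =>
    intro j
    refine ⟨(∏ i ∈ Finset.range j, (X + C ((i : O) + 1))) ^ A, fun k => ?_⟩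
    rw [epc_nil, one_mul, eval_pow, eval_prod, dl, pr, List.map_nil, List.prod_nil, one_pow, one_mul]
    push_cast
    congr 1
    refine Finset.prod_congr rfl fun i _ => ?_
    simp only [eval_add, eval_X, eval_C]
    push_cast
    ring
  | cons l u ih =>
    have hs : l.1 ≤ A := hu l List.mem_cons_self
    have hu' : ∀ l' ∈ u, l'.1 ≤ A := fun x hx => hu x (List.mem_cons_of_mem _ hx)
    have hO' : ∀ l' ∈ u, l'.2 ∈ O := fun x hx => hO x (List.mem_cons_of_mem _ hx)
    intro j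
    induction j with
    | zero =>
      refine ⟨0, fun k => ?_⟩
      rw [add_zero, epc_self, zero_mul]
      simp
    | succ j ihj =>
      obtain ⟨P, hP⟩ := ihj
      obtain ⟨Q, hQ⟩ := ih hu' hO' j
      refine ⟨P * (X + C ((j : O) + 1)) ^ A +
        C ((⟨l.2, hO l List.mem_cons_self⟩ : O) ^ (j + 1)) * (Q * (X + C ((j : O) + 1)) ^ (A - l.1)), fun k => ?_⟩
      have h1 : dl k (j + 1) = dl k j * ((k + j + 1 : ℕ) : ℝ) := by rw [dl, Finset.prod_range_succ, ← dl]
      have hx : ((k + j + 1 : ℕ) : ℂ) ≠ 0 := by exact_mod_cast (by omega : k + j + 1 ≠ 0)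
      have h2 : ((((k + j + 1 : ℕ) : ℂ)) ^ l.1)⁻¹ * ((k + j + 1 : ℕ) : ℂ) ^ A =
          ((k + j + 1 : ℕ) : ℂ) ^ (A - l.1) := by
        have h0 : ((k + j + 1 : ℕ) : ℂ) ^ A = ((k + j + 1 : ℕ) : ℂ) ^ (A - l.1) * ((k + j + 1 : ℕ) : ℂ) ^ l.1 := by
          rw [← pow_add, Nat.sub_add_cancel hs]
        rw [h0]
        have : ((k + j + 1 : ℕ) : ℂ) ^ l.1 ≠ 0 := pow_ne_zero _ hx
        field_simp
      rw [← add_assoc, epc_succ l u (by omega : k ≤ k + j), h1, Complex.ofReal_mul, mul_pow]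
      have h3 : (epc (l :: u) k (k + j) + l.2 ^ (k + j + 1) * ((((k + j + 1 : ℕ) : ℂ)) ^ l.1)⁻¹ * epc u k (k + j)) *
          (((dl k j : ℝ) : ℂ) ^ A * ((((k + j + 1 : ℕ) : ℝ) : ℂ)) ^ A) =
          (epc (l :: u) k (k + j) * ((dl k j : ℝ) : ℂ) ^ A) * ((k + j + 1 : ℕ) : ℂ) ^ A +
          l.2 ^ (k + j + 1) * (epc u k (k + j) * ((dl k j : ℝ) : ℂ) ^ A) *
            (((((k + j + 1 : ℕ) : ℂ)) ^ l.1)⁻¹ * ((k + j + 1 : ℕ) : ℂ) ^ A) := by
        push_cast
        ring
      rw [h3, h2, hP, hQ, pr_cons]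
      have h4 : l.2 ^ (k + j + 1) = l.2 ^ k * l.2 ^ (j + 1) := by rw [← pow_add]; congr 1
      rw [h4]
      simp only [eval_add, eval_mul, eval_pow, eval_X, eval_C]
      push_cast
      rw [mul_pow]
      ring

/-- polynomials over a discrete ring do not vanish at integers beyond their coefficients -/
lemma disc_low (O : Subring ℂ) (hO : ∀ x ∈ O, x ≠ 0 → 1 ≤ ‖x‖) (k : ℕ) (hk : 0 < k) :
    ∀ (n : ℕ) (P : Polynomial O), P.natDegree ≤ n → P ≠ 0 →
    (∀ i, ‖((P.coeff i : O) : ℂ)‖ < k) → P.eval ((k : ℕ) : O) ≠ 0 := by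
  intro n
  induction n with
  | zero =>
    intro P hn hP _ h
    obtain ⟨a, rfl⟩ : ∃ a, P = C a := ⟨P.coeff 0, eq_C_of_natDegree_le_zero hn⟩
    rw [eval_C] at h
    exact hP (by rw [h, C_0])
  | succ n ih =>
    intro P hn hP hco h
    have h1 := divX_mul_X_add P
    have h2 : P.eval ((k : ℕ) : O) = (divX P).eval ((k : ℕ) : O) * ((k : ℕ) : O) + P.coeff 0 := by
      conv_lhs => rw [← h1]
      simp
    have hk' : ((k : ℕ) : O) ≠ 0 := by exact_mod_cast hk.ne'
    by_cases h0 : P.coeff 0 = 0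
    · rw [h0, add_zero] at h2
      rw [h0, C_0, add_zero] at h1
      have h3 : divX P ≠ 0 := by
        intro h4
        rw [h4, zero_mul] at h1
        exact hP h1.symm
      have h4 := ih (divX P) (by rw [natDegree_divX_eq_natDegree_tsub_one]; omega) h3
        (fun i => by rw [coeff_divX]; exact hco (i + 1))
      rw [h] at h2
      exact (mul_ne_zero h4 hk') h2.symm
    · rw [h] at h2
      have h3 : P.coeff 0 = -(divX P).eval ((k : ℕ) : O) * ((k : ℕ) : O) := by linear_combination -h2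
      have h4 : (divX P).eval ((k : ℕ) : O) ≠ 0 := by
        intro h5
        rw [h5, neg_zero, zero_mul] at h3
        exact h0 h3
      have h5 := hO _ ((divX P).eval ((k : ℕ) : O)).2 (by
        intro h6
        exact h4 (Subtype.ext h6))
      have h6 := hco 0
      rw [h3] at h6
      push_cast at h6
      rw [norm_mul, norm_neg, Complex.norm_natCast] at h6
      have hk0 : (0 : ℝ) < k := by exact_mod_cast hk
      nlinarith

lemma cplx_low (P : Polynomial ℂ) (hP : P ≠ 0) : ∃ k0 : ℕ, ∀ k : ℕ, k0 ≤ k → 1 / (k : ℝ) ≤ ‖P.eval (k : ℂ)‖ := by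
  rcases lt_or_ge 0 P.degree with h | h
  · have h0 : Tendsto (fun k : ℕ => ‖((k : ℕ) : ℂ)‖) atTop atTop := by
      simp only [Complex.norm_natCast]
      exact tendsto_natCast_atTop_atTop
    have h1 := Polynomial.tendsto_norm_atTop P h h0
    obtain ⟨k0, hk0⟩ := Filter.eventually_atTop.1 (h1.eventually_ge_atTop 1)
    refine ⟨max k0 1, fun k hk => ?_⟩
    have h3 := hk0 k ((le_max_left _ _).trans hk)
    have h4 : (1 : ℝ) ≤ k := by exact_mod_cast (le_max_right _ _).trans hk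
    refine le_trans ?_ h3
    rw [div_le_one (by linarith)]
    exact h4
  · obtain ⟨a, rfl⟩ : ∃ a, P = C a := ⟨P.coeff 0, eq_C_of_degree_le_zero h⟩
    have ha : a ≠ 0 := fun h0 => hP (by rw [h0, C_0])
    obtain ⟨k0, hk0⟩ := exists_nat_ge (1 / ‖a‖)
    have ha' : 0 < ‖a‖ := norm_pos_iff.2 ha
    refine ⟨k0, fun k hk => ?_⟩
    rw [eval_C]
    have h1 : 1 / ‖a‖ ≤ k := hk0.trans (by exact_mod_cast hk)
    have h2 : (0 : ℝ) < k := lt_of_lt_of_le (by positivity) h1
    rw [div_le_iff₀ h2]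
    rw [div_le_iff₀ ha'] at h1
    linarith

/-- the combination of the middle parts -/
noncomputable def EC (U : Finset (List (ℕ × ℂ))) (c : List (ℕ × ℂ) → ℂ) (k n : ℕ) : ℂ := ∑ u ∈ U, c u * epc u k n

/-- the values -/
noncomputable def FC (U : Finset (List (ℕ × ℂ))) (c : List (ℕ × ℂ) → ℂ) (t : List ℕ) (n : ℕ) : ℂ :=
  ∑ u ∈ U, c u * Hc (u ++ lift t) n

lemma FC_eq (U : Finset (List (ℕ × ℂ))) (c : List (ℕ × ℂ) → ℂ) (y : ℕ) (t : List ℕ) (n : ℕ) :
    FC U c (y :: t) n =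
      ∑ m ∈ Finset.range n, ((H t m * (((m + 1 : ℕ) : ℝ) ^ y)⁻¹ : ℝ) : ℂ) * EC U c (m + 1) n := by
  rw [FC, Finset.sum_congr rfl fun (u : List (ℕ × ℂ)) _ => by rw [Hc_mid, Finset.mul_sum], Finset.sum_comm]
  refine Finset.sum_congr rfl fun m _ => ?_
  rw [EC, Finset.mul_sum]
  exact Finset.sum_congr rfl fun u _ => by ring

lemma FC_zero {U : Finset (List (ℕ × ℂ))} {c : List (ℕ × ℂ) → ℂ} {j0 : ℕ}
    (hz : ∀ j < j0, ∀ k, EC U c k (k + j) = 0) (y : ℕ) (t : List ℕ) (n : ℕ) (hn : n < (y :: t).length + j0) :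
    FC U c (y :: t) n = 0 := by
  rw [FC_eq]
  refine Finset.sum_eq_zero fun m hm => ?_
  have hm' := Finset.mem_range.1 hm
  rw [List.length_cons] at hn
  rcases Nat.lt_or_ge m t.length with h | h
  · rw [H_small t m h]; simp
  · have h1 := hz (n - (m + 1)) (by omega) (m + 1)
    rw [show m + 1 + (n - (m + 1)) = n by omega] at h1
    rw [h1, mul_zero]

lemma FC_first {U : Finset (List (ℕ × ℂ))} {c : List (ℕ × ℂ) → ℂ} {j0 : ℕ}
    (hz : ∀ j < j0, ∀ k, EC U c k (k + j) = 0) (y : ℕ) (t : List ℕ) :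
    FC U c (y :: t) ((y :: t).length + j0) = ((H (y :: t) (y :: t).length : ℝ) : ℂ) *
      EC U c (y :: t).length ((y :: t).length + j0) := by
  rw [FC_eq, Finset.sum_eq_single t.length]
  · rw [H_len, List.length_cons]
    push_cast
    ring
  · intro m hm hne
    have hm' := Finset.mem_range.1 hm
    rw [List.length_cons] at hm'
    rcases Nat.lt_or_ge m t.length with h | h
    · rw [H_small t m h]; simp
    · rw [List.length_cons]
      have h1 := hz (t.length + 1 + j0 - (m + 1)) (by omega) (m + 1)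
      rw [show m + 1 + (t.length + 1 + j0 - (m + 1)) = t.length + 1 + j0 by omega] at h1
      rw [h1, mul_zero]
  · intro h
    exfalso
    apply h
    rw [List.length_cons, Finset.mem_range]
    omega

end Pool.Agent.U623.HK
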