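import Mathlib
import Pool.Agent.U623.HK.Two
import Pool.Agent.U623.HC.Main

/-!
# Coloured middle parts: the estimates
-/

set_option autoImplicit false

namespace Pool.Agent.U623.HK

open Filter Topology
open Pool.Agent.H447R2.MZ (H H_nil H_cons H_cons_zero H_cons_succ H_nonneg Adm val tendsto_H H_le_val)
open Pool.Agent.U623.HC (wt wt_nonneg wt_step wd H_small H_len H_len_pos H_le_ut H_le_R tail wd_nonneg est
  H_split wt_anti choose_bound dl dl_pos dl_le upper Parts adm_parts)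

lemma core2 {U : Finset (List (ℕ × ℂ))} (hU : ∀ u ∈ U, Col u) {c : List (ℕ × ℂ) → ℂ} {j0 R : ℕ}
    (hR : ∀ u ∈ U, u.length ≤ R)
    (hz : ∀ j < j0, ∀ k, EC U c k (k + j) = 0) (y : ℕ) (t q : List ℕ) (b : ℕ) (hq : ∀ x ∈ q, 1 ≤ x) (N l : ℕ)
    (hl : (y :: t).length = l) (hN : l + j0 + 1 ≤ N) (hρ : 0 < wd (q ++ [b + 1]))
    (hr : 2 * ((R : ℝ) + l) * (1 + l) ≤ wd (q ++ [b + 1]))
    (hE : (∑ u ∈ U, ‖c u‖) * (2 * (((l + j0 : ℕ) : ℝ) + 1) / wd (q ++ [b + 1])) *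
      (Nat.choose (l + j0 + 1 + R) (l + R) : ℝ) ≤ ‖EC U c l (l + j0)‖ / 2) :
    ‖EC U c l (l + j0)‖ / 2 * H (y :: t) l * wt q (b + 1) N (l + j0) ≤
      ‖∑ u ∈ U, c u * Hc (lift (q ++ [b + 1]) ++ (u ++ lift (y :: t))) N‖ := by
  have hsum : ∑ u ∈ U, c u * Hc (lift (q ++ [b + 1]) ++ (u ++ lift (y :: t))) N =
      ∑ n ∈ Finset.range N, FC U c (y :: t) n * ((wt q (b + 1) N n : ℝ) : ℂ) := by
    rw [Finset.sum_congr rfl fun (u : List (ℕ × ℂ)) _ => by rw [Hc_split, Finset.mul_sum], Finset.sum_comm]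
    refine Finset.sum_congr rfl fun n _ => ?_
    rw [FC, Finset.sum_mul]
    exact Finset.sum_congr rfl fun u _ => by ring
  have hHt : 0 < H (y :: t) l := by rw [← hl]; exact H_len_pos _
  have hexl : ∀ u : List (ℕ × ℂ), ex (u ++ lift (y :: t)) = ex u ++ (y :: t) := by
    intro u
    have h1 := ex_app (y :: t) []
    rw [List.append_nil] at h1
    have h2 : ex ([] : List (ℕ × ℂ)) = [] := rfl
    rw [h2, List.append_nil] at h1
    rw [ex, List.map_append, ← ex, ← ex, h1]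
  have hF : ∀ n, ‖FC U c (y :: t) n‖ ≤ (∑ u ∈ U, ‖c u‖) * H (y :: t) l * (Nat.choose (n + R) (l + R) : ℝ) := by
    intro n
    rw [FC]
    refine (norm_sum_le _ _).trans ?_
    rw [mul_assoc, Finset.sum_mul]
    refine Finset.sum_le_sum fun u hu => ?_
    rw [norm_mul]
    refine mul_le_mul_of_nonneg_left ?_ (norm_nonneg _)
    have h0 : ∀ l' ∈ u ++ lift (y :: t), ‖l'.2‖ ≤ 1 := by
      intro l' hl'
      rcases List.mem_append.1 hl' with h1 | h1
      · exact (hU u hu l' h1).2.2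
      · rw [lift, List.mem_map] at h1
        obtain ⟨a, _, rfl⟩ := h1
        simp
    have h1 := norm_Hc_le _ h0 n
    rw [hexl] at h1
    have h2 := H_le_R (ex u) (y :: t) R (by rw [ex, List.length_map]; exact hR u hu) n
    rw [hl] at h2
    exact h1.trans h2
  have hF0 : ∀ n < l + j0, FC U c (y :: t) n = 0 := by
    intro n hn
    exact FC_zero hz y t n (by rw [hl]; exact hn)
  have hF1 : FC U c (y :: t) (l + j0) = ((H (y :: t) l : ℝ) : ℂ) * EC U c l (l + j0) := by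
    have := FC_first hz y t
    rw [hl] at this
    exact this
  have hC : 0 ≤ (∑ u ∈ U, ‖c u‖) * H (y :: t) l :=
    mul_nonneg (Finset.sum_nonneg fun u _ => norm_nonneg _) hHt.le
  have h1 := estC (wt q (b + 1) N) (FC U c (y :: t)) N l R (l + j0) (wt_nonneg q (b + 1) N) hρ hC
    (fun n hn => wt_step q b hq N n hn) hr hF hF0 (by omega) hN
  rw [hF1, ← hsum] at h1
  have hw := wt_nonneg q (b + 1) N (l + j0)
  have h2 : (∑ u ∈ U, ‖c u‖) * H (y :: t) l * (2 * (((l + j0 : ℕ) : ℝ) + 1) / wd (q ++ [b + 1])) *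
      (Nat.choose (l + j0 + 1 + R) (l + R) : ℝ) * wt q (b + 1) N (l + j0) ≤
      ‖EC U c l (l + j0)‖ / 2 * (H (y :: t) l * wt q (b + 1) N (l + j0)) := by
    calc (∑ u ∈ U, ‖c u‖) * H (y :: t) l * (2 * (((l + j0 : ℕ) : ℝ) + 1) / wd (q ++ [b + 1])) *
          (Nat.choose (l + j0 + 1 + R) (l + R) : ℝ) * wt q (b + 1) N (l + j0)
        = ((∑ u ∈ U, ‖c u‖) * (2 * (((l + j0 : ℕ) : ℝ) + 1) / wd (q ++ [b + 1])) *
          (Nat.choose (l + j0 + 1 + R) (l + R) : ℝ)) * (H (y :: t) l * wt q (b + 1) N (l + j0)) := by ring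
      _ ≤ _ := mul_le_mul_of_nonneg_right hE (mul_nonneg hHt.le hw)
  have h3 := norm_sub_norm_le (((H (y :: t) l : ℝ) : ℂ) * EC U c l (l + j0) * ((wt q (b + 1) N (l + j0) : ℝ) : ℂ))
    (∑ u ∈ U, c u * Hc (lift (q ++ [b + 1]) ++ (u ++ lift (y :: t))) N)
  rw [norm_sub_rev, norm_mul, norm_mul, Complex.norm_real, Complex.norm_real, Real.norm_eq_abs,
    Real.norm_eq_abs, abs_of_pos hHt, abs_of_nonneg hw] at h3
  have h4 := h3.trans (h1.trans h2)
  have h5 : H (y :: t) l * ‖EC U c l (l + j0)‖ * wt q (b + 1) N (l + j0) -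
      ‖EC U c l (l + j0)‖ / 2 * (H (y :: t) l * wt q (b + 1) N (l + j0)) =
      ‖EC U c l (l + j0)‖ / 2 * H (y :: t) l * wt q (b + 1) N (l + j0) := by ring
  linarith

/-- **The estimate** with explicit exponents. -/
lemma total2 {U : Finset (List (ℕ × ℂ))} (hU : ∀ u ∈ U, Col u) {c : List (ℕ × ℂ) → ℂ} {j0 R J A e : ℕ}
    (he1 : 1 ≤ e) (hR : ∀ u ∈ U, u.length ≤ R)
    (hJ : j0 ≤ J) (hz : ∀ j < j0, ∀ k, EC U c k (k + j) = 0) (y : ℕ) (t q : List ℕ) (b : ℕ)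
    (hq : ∀ x ∈ q, 1 ≤ x) (N l : ℕ) (hl : (y :: t).length = l) (hl1 : 2 * J + R + 10 ≤ l) (hN : l + J + 1 ≤ N)
    (hC : ∑ u ∈ U, ‖c u‖ ≤ (l : ℝ) ^ 2) (hEE : 1 ≤ ‖EC U c l (l + j0)‖ * dl l j0 ^ A * (l : ℝ) ^ e)
    (hρ : (l : ℝ) ^ (2 * J * (A + 1) + 9 + e) ≤ wd (q ++ [b + 1])) :
    H (q ++ [b + 1] ++ (List.replicate J 2 ++ (y :: t))) N / (l : ℝ) ^ (2 * J * (A + 1) + 9 + e) ≤
      ‖∑ u ∈ U, c u * Hc (lift (q ++ [b + 1]) ++ (u ++ lift (y :: t))) N‖ := by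
  set x : ℝ := (l : ℝ) with hx
  set ρ := wd (q ++ [b + 1]) with hρdef
  have hx10 : (10 : ℝ) ≤ x := by rw [hx]; exact_mod_cast (by omega : 10 ≤ l)
  have hx1 : (1 : ℝ) ≤ x := by linarith
  have hx0 : (0 : ℝ) < x := by linarith
  have hlsq : l + l ≤ l ^ 2 := by nlinarith [(by omega : 2 ≤ l)]
  have hρ0 : 0 < ρ := lt_of_lt_of_le (by positivity) hρ
  have hpow : ∀ {a b : ℕ}, a ≤ b → x ^ a ≤ x ^ b := fun h => pow_le_pow_right₀ hx1 h
  -- the middle part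
  have hdl : dl l j0 ^ A ≤ x ^ (2 * J * A) := by
    have h1 := dl_le l j0
    have h2 : ((l : ℝ) + j0) ≤ x ^ 2 := by
      rw [hx]
      exact_mod_cast (by omega : l + j0 ≤ l ^ 2)
    have h3 : ((l : ℝ) + j0) ^ j0 ≤ (x ^ 2) ^ j0 := pow_le_pow_left₀ (by positivity) h2 _
    have h4 : (x ^ 2) ^ j0 ≤ x ^ (2 * J) := by
      rw [← pow_mul]
      exact hpow (by omega)
    calc dl l j0 ^ A ≤ (x ^ (2 * J)) ^ A := pow_le_pow_left₀ (dl_pos _ _).le (h1.trans (h3.trans h4)) _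
      _ = x ^ (2 * J * A) := by rw [← pow_mul]
  set v := ‖EC U c l (l + j0)‖ with hv
  have hv0 : 0 ≤ v := norm_nonneg _
  have hlow : 1 ≤ v * x ^ (2 * J * A + e) := by
    have h1 : v * dl l j0 ^ A * x ^ e ≤ v * x ^ (2 * J * A) * x ^ e :=
      mul_le_mul_of_nonneg_right (mul_le_mul_of_nonneg_left hdl hv0) (by positivity)
    calc (1 : ℝ) ≤ v * x ^ (2 * J * A) * x ^ e := hEE.trans h1
      _ = _ := by rw [pow_add]; ring
  -- the conditions
  have hr1 : ∀ K : ℕ, K + l ≤ l ^ 2 → 2 * ((K : ℝ) + l) * (1 + l) ≤ ρ := by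
    intro K hK
    have h1 : (K : ℝ) + l ≤ x ^ 2 := by rw [hx]; exact_mod_cast hK
    have h2 : (1 : ℝ) + l ≤ x ^ 2 := by rw [hx]; exact_mod_cast (by omega : 1 + l ≤ l ^ 2)
    calc 2 * ((K : ℝ) + l) * (1 + l) ≤ x * x ^ 2 * x ^ 2 := by
          refine mul_le_mul (mul_le_mul (by linarith) h1 (by positivity) hx0.le) h2 (by positivity) (by positivity)
      _ = x ^ 5 := by ring
      _ ≤ x ^ (2 * J * (A + 1) + 9 + e) := hpow (by omega)
      _ ≤ ρ := hρ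
  have hn : ∀ j : ℕ, j ≤ J → 2 * (((l + j : ℕ) : ℝ) + 1) ≤ x ^ 3 := by
    intro j hj
    have h1 : (((l + j : ℕ) : ℝ) + 1) ≤ x ^ 2 := by rw [hx]; exact_mod_cast (by omega : l + j + 1 ≤ l ^ 2)
    calc 2 * (((l + j : ℕ) : ℝ) + 1) ≤ x * x ^ 2 :=
          mul_le_mul (by linarith) h1 (by positivity) hx0.le
      _ = x ^ 3 := by ring
  have hch : ∀ j K : ℕ, j ≤ J → l + j + 1 + K ≤ l ^ 2 →
      (Nat.choose (l + j + 1 + K) (l + K) : ℝ) ≤ x ^ (2 * J + 2) := by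
    intro j K hj hK
    refine (choose_bound l j K (l ^ 2) hK).trans ?_
    push_cast
    rw [← pow_mul]
    exact hpow (by omega)
  have hE1 : (∑ u ∈ U, ‖c u‖) * (2 * (((l + j0 : ℕ) : ℝ) + 1) / ρ) *
      (Nat.choose (l + j0 + 1 + R) (l + R) : ℝ) ≤ v / 2 := by
    have h1 := hn j0 hJ
    have h2 := hch j0 R hJ (by omega)
    have hS : 0 ≤ ∑ u ∈ U, ‖c u‖ := Finset.sum_nonneg fun u _ => norm_nonneg _
    have h3 : (∑ u ∈ U, ‖c u‖) * (2 * (((l + j0 : ℕ) : ℝ) + 1) / ρ) *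
        (Nat.choose (l + j0 + 1 + R) (l + R) : ℝ) ≤ x ^ 2 * (x ^ 3 / ρ) * x ^ (2 * J + 2) := by
      refine mul_le_mul (mul_le_mul hC ?_ (by positivity) (by positivity)) h2 (by positivity) (by positivity)
      exact div_le_div_of_nonneg_right h1 hρ0.le
    refine h3.trans ?_
    have h4 : x ^ 2 * (x ^ 3 / ρ) * x ^ (2 * J + 2) = x ^ (2 * J + 7) / ρ := by ring
    rw [h4, div_le_iff₀ hρ0]
    have h5 : x ^ (2 * J + 7) * x ≤ v * x ^ (2 * J * (A + 1) + 9 + e) / 1 := by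
      have h6 : x ^ (2 * J + 7) * x * 1 ≤ x ^ (2 * J + 7) * x * (v * x ^ (2 * J * A + e)) :=
        mul_le_mul_of_nonneg_left hlow (by positivity)
      have h7 : x ^ (2 * J + 7) * x * (v * x ^ (2 * J * A + e)) = v * x ^ (2 * J * (A + 1) + 8 + e) := by ring
      rw [h7, mul_one] at h6
      rw [div_one]
      exact h6.trans (mul_le_mul_of_nonneg_left (hpow (by omega)) hv0)
    have h8 : v * x ^ (2 * J * (A + 1) + 9 + e) / 1 ≤ v * ρ := by
      rw [div_one]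
      exact mul_le_mul_of_nonneg_left hρ hv0
    have h9 : x ^ (2 * J + 7) * 2 ≤ x ^ (2 * J + 7) * x :=
      mul_le_mul_of_nonneg_left (by linarith) (by positivity)
    linarith [h9.trans (h5.trans h8)]
  have hE2 : 2 * (((l + J : ℕ) : ℝ) + 1) / ρ * (Nat.choose (l + J + 1 + J) (l + J) : ℝ) ≤ 1 := by
    have h1 := hn J le_rfl
    have h2 := hch J J le_rfl (by omega)
    have h3 : 2 * (((l + J : ℕ) : ℝ) + 1) / ρ * (Nat.choose (l + J + 1 + J) (l + J) : ℝ) ≤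
        x ^ 3 / ρ * x ^ (2 * J + 2) := by
      refine mul_le_mul ?_ h2 (by positivity) (by positivity)
      exact div_le_div_of_nonneg_right h1 hρ0.le
    refine h3.trans ?_
    rw [div_mul_eq_mul_div, div_le_one hρ0]
    calc x ^ 3 * x ^ (2 * J + 2) = x ^ (2 * J + 5) := by ring
      _ ≤ x ^ (2 * J * (A + 1) + 9 + e) := hpow (by nlinarith)
      _ ≤ ρ := hρ
  have hA := core2 hU hR hz y t q b hq N l hl (by omega) hρ0 (hr1 R (by omega)) hE1
  have hB := upper J y t q b hq N l hl hN hρ0 (hr1 J (by omega)) hE2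
  have hw := wt_anti q b hq N (l + j0) (l + J) (by omega) hN hρ0.le
  have hHt : 0 < H (y :: t) l := by rw [← hl]; exact H_len_pos _
  rw [div_le_iff₀ (by positivity)]
  have h1 : H (q ++ [b + 1] ++ (List.replicate J 2 ++ (y :: t))) N ≤
      2 * H (y :: t) l * wt q (b + 1) N (l + j0) :=
    hB.trans (mul_le_mul_of_nonneg_left hw (by positivity))
  have hw0 := wt_nonneg q (b + 1) N (l + j0)
  have h2 : 2 * H (y :: t) l * wt q (b + 1) N (l + j0) ≤
      v / 2 * H (y :: t) l * wt q (b + 1) N (l + j0) * x ^ (2 * J * (A + 1) + 9 + e) := by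
    have h3 : 4 ≤ v * x ^ (2 * J * (A + 1) + 9 + e) := by
      have h4 : v * x ^ (2 * J * A + e) * x ≤ v * x ^ (2 * J * (A + 1) + 9 + e) := by
        have h5 : v * x ^ (2 * J * A + e) * x = v * x ^ (2 * J * A + e + 1) := by ring
        rw [h5]
        exact mul_le_mul_of_nonneg_left (hpow (by nlinarith)) hv0
      have h6 : 1 * x ≤ v * x ^ (2 * J * A + e) * x := mul_le_mul_of_nonneg_right hlow hx0.le
      linarith
    have h7 : 0 ≤ H (y :: t) l * wt q (b + 1) N (l + j0) := mul_nonneg hHt.le hw0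
    nlinarith [mul_le_mul_of_nonneg_right h3 h7]
  refine h1.trans (h2.trans ?_)
  exact mul_le_mul_of_nonneg_right hA (by positivity)

/-- convergence -/
lemma conv2 {E : ℕ} {p t : List ℕ} (h : Parts E p t) (hp : p ≠ []) {u : List (ℕ × ℂ)} (hu : Col u) :
    Tendsto (Hc (lift p ++ (u ++ lift t))) atTop (𝓝 (mli (lift p ++ (u ++ lift t)))) := by
  refine tendsto_Hc _ (fun l hl => ?_) ?_
  · rcases List.mem_append.1 hl with h1 | h1
    · rw [lift, List.mem_map] at h1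
      obtain ⟨a, _, rfl⟩ := h1
      simp
    · rcases List.mem_append.1 h1 with h2 | h2
      · exact (hu l h2).2.2
      · rw [lift, List.mem_map] at h2
        obtain ⟨a, _, rfl⟩ := h2
        simp
  · have h1 := ex_app t []
    rw [List.append_nil] at h1
    have h2 : ex ([] : List (ℕ × ℂ)) = [] := rfl
    rw [h2, List.append_nil] at h1
    rw [ex_app, ex, List.map_append, ← ex, ← ex, h1]
    refine adm_parts h hp _ fun x hx => ?_
    rw [ex, List.mem_map] at hx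
    obtain ⟨l, hl, rfl⟩ := hx
    exact (hu l hl).1

/-- the limit -/
lemma limit2 {U : Finset (List (ℕ × ℂ))} (hU : ∀ u ∈ U, Col u) {c : List (ℕ × ℂ) → ℂ} {j0 R J A e : ℕ}
    (he : 1 ≤ e) (hR : ∀ u ∈ U, u.length ≤ R)
    (hJ : j0 ≤ J) (hz : ∀ j < j0, ∀ k, EC U c k (k + j) = 0) {p t : List ℕ}
    (h : Parts (2 * J * (A + 1) + 9 + e) p t) (hl1 : 2 * J + R + 10 ≤ t.length)
    (hC : ∑ u ∈ U, ‖c u‖ ≤ (t.length : ℝ) ^ 2)
    (hEE : 1 ≤ ‖EC U c t.length (t.length + j0)‖ * dl t.length j0 ^ A * (t.length : ℝ) ^ e) :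
    0 < val (p ++ (List.replicate J 2 ++ t)) ∧
    val (p ++ (List.replicate J 2 ++ t)) / (t.length : ℝ) ^ (2 * J * (A + 1) + 9 + e) ≤
      ‖∑ u ∈ U, c u * mli (lift p ++ (u ++ lift t))‖ := by
  have ht : t ≠ [] := by
    rintro rfl
    simp at hl1
  have hp : p ≠ [] := by
    rintro rfl
    have := h.2.2.2
    rw [List.length_nil, List.sum_nil, add_zero] at this
    have h2 : 0 < t.length ^ (2 * J * (A + 1) + 9 + e) := by
      have : 0 < t.length := by omega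
      positivity
    omega
  have hadm := adm_parts h hp
  have h2 : ∀ x ∈ List.replicate J 2, 1 ≤ x := by
    intro x hx
    rw [(List.mem_replicate.1 hx).2]
    norm_num
  have hcv : ∀ u ∈ U, Tendsto (Hc (lift p ++ (u ++ lift t))) atTop (𝓝 (mli (lift p ++ (u ++ lift t)))) :=
    fun u hu => conv2 h hp (hU u hu)
  constructor
  · exact lt_of_lt_of_le (H_len_pos _) (H_le_val _ (hadm _ h2) _)
  obtain ⟨y, t', rfl⟩ : ∃ y t', t = y :: t' := by
    cases t with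
    | nil => exact absurd rfl ht
    | cons y t' => exact ⟨y, t', rfl⟩
  obtain ⟨q, s, rfl⟩ : ∃ q s, p = q ++ [s] := by
    rcases List.eq_nil_or_concat p with rfl | ⟨q, s, rfl⟩
    · exact absurd rfl hp
    · exact ⟨q, s, List.concat_eq_append⟩
  obtain ⟨b, rfl⟩ : ∃ b, s = b + 1 := ⟨s - 1, by have := h.1 s (by simp); omega⟩
  have hq : ∀ x ∈ q, 1 ≤ x := fun x hx => h.1 x (by simp [hx])
  have hρ : (((y :: t').length : ℕ) : ℝ) ^ (2 * J * (A + 1) + 9 + e) ≤ wd (q ++ [b + 1]) := by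
    have h3 := h.2.2.2
    rw [wd]
    have h4 : (((y :: t').length ^ (2 * J * (A + 1) + 9 + e) + (q ++ [b + 1]).length : ℕ) : ℝ) ≤
        (((q ++ [b + 1]).sum : ℕ) : ℝ) := by exact_mod_cast h3
    rw [Nat.cast_add, Nat.cast_pow] at h4
    linarith
  have htend : Tendsto (fun N => ‖∑ u ∈ U, c u * Hc (lift (q ++ [b + 1]) ++ (u ++ lift (y :: t'))) N‖) atTop
      (𝓝 ‖∑ u ∈ U, c u * mli (lift (q ++ [b + 1]) ++ (u ++ lift (y :: t')))‖) :=
    (tendsto_finsetSum _ fun u hu => (hcv u hu).const_mul _).norm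
  have htend2 : Tendsto (fun N => H (q ++ [b + 1] ++ (List.replicate J 2 ++ (y :: t'))) N /
      (((y :: t').length : ℕ) : ℝ) ^ (2 * J * (A + 1) + 9 + e)) atTop
      (𝓝 (val (q ++ [b + 1] ++ (List.replicate J 2 ++ (y :: t'))) /
        (((y :: t').length : ℕ) : ℝ) ^ (2 * J * (A + 1) + 9 + e))) :=
    (tendsto_H _ (hadm _ h2)).div_const _
  refine le_of_tendsto_of_tendsto htend2 htend ?_
  filter_upwards [eventually_ge_atTop ((y :: t').length + J + 1)] with N hN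
  exact total2 hU he hR hJ hz y t' q b hq N _ rfl hl1 hN hC hEE hρ

/-- the order of vanishing -/
lemma order2 (U : Finset (List (ℕ × ℂ))) (hU : ∀ u ∈ U, Col u) : ∃ J : ℕ, ∀ c : List (ℕ × ℂ) → ℂ,
    (∃ u ∈ U, c u ≠ 0) →
    ∃ j0 ≤ J, (∀ j < j0, ∀ k, EC U c k (k + j) = 0) ∧ ∃ k, EC U c k (k + j0) ≠ 0 := by
  classical
  obtain ⟨M, hM⟩ := firstC U hU
  refine ⟨M, fun c hc => ?_⟩
  obtain ⟨n, hn, _, hne⟩ := hM c hc
  have h0 : EC U c 0 (0 + n) ≠ 0 := by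
    rw [EC, zero_add]
    simp only [epc_zero]
    exact hne
  have hex : ∃ j, ∃ k, EC U c k (k + j) ≠ 0 := ⟨n, 0, h0⟩
  refine ⟨Nat.find hex, (Nat.find_min' hex ⟨0, h0⟩).trans hn, ?_, Nat.find_spec hex⟩
  intro j hj k
  by_contra h
  exact Nat.find_min hex hj ⟨k, h⟩

end Pool.Agent.U623.HK
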