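import Mathlib
import Pool.Agent.U623.HK.TwoCore

/-!
# Coloured middle parts, uncoloured first and last parts: the theorem
-/

set_option autoImplicit false

namespace Pool.Agent.U623.HK

open Filter Topology Polynomial
open Pool.Agent.H447R2.MZ (H H_nil H_cons H_cons_zero H_cons_succ H_nonneg Adm val tendsto_H H_le_val)
open Pool.Agent.U623.HC (dl dl_pos dl_le Parts adm_parts)

lemma norm_pr (u : List (ℕ × ℂ)) (h : ∀ l ∈ u, ‖l.2‖ = 1) : ‖pr u‖ = 1 := by
  induction u with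
  | nil => rw [pr, List.map_nil, List.prod_nil, norm_one]
  | cons l u ih =>
    rw [pr_cons, norm_mul, h l List.mem_cons_self, ih fun l' hl' => h l' (List.mem_cons_of_mem _ hl'), one_mul]

/-- **Theorem.** -/
theorem main2 (U : Finset (List (ℕ × ℂ))) (hU : ∀ u ∈ U, Col u) (hU1 : ∀ u ∈ U, ∀ l ∈ u, ‖l.2‖ = 1) (σ : ℂ)
    (hσ : ∀ u ∈ U, pr u = σ) : ∃ J E : ℕ,
    (∀ c : List (ℕ × ℂ) → ℂ, (∃ u ∈ U, c u ≠ 0) → ∃ n0 : ℕ, ∀ p t : List ℕ, Parts E p t → n0 ≤ t.length →
      0 < val (p ++ (List.replicate J 2 ++ t)) ∧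
      val (p ++ (List.replicate J 2 ++ t)) / (t.length : ℝ) ^ E ≤
        ‖∑ u ∈ U, c u * mli (lift p ++ (u ++ lift t))‖) ∧
    (∀ O : Subring ℂ, (∀ x ∈ O, x ≠ 0 → 1 ≤ ‖x‖) → (∀ u ∈ U, ∀ l ∈ u, l.2 ∈ O) → ∃ κ : ℝ, 0 < κ ∧
      ∀ p t : List ℕ, Parts E p t → ∀ c : List (ℕ × ℂ) → ℂ, (∀ u ∈ U, c u ∈ O) → (∃ u ∈ U, c u ≠ 0) →
      (∀ u ∈ U, ‖c u‖ ≤ κ * t.length) →
      0 < val (p ++ (List.replicate J 2 ++ t)) ∧
      val (p ++ (List.replicate J 2 ++ t)) / (t.length : ℝ) ^ E ≤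
        ‖∑ u ∈ U, c u * mli (lift p ++ (u ++ lift t))‖) := by
  classical
  obtain ⟨J, hJ⟩ := order2 U hU
  obtain ⟨R, hR⟩ : ∃ R, ∀ u ∈ U, u.length ≤ R :=
    ⟨∑ u ∈ U, u.length, fun u hu =>
      Finset.single_le_sum (f := fun u : List (ℕ × ℂ) => u.length) (fun _ _ => Nat.zero_le _) hu⟩
  obtain ⟨A, hA⟩ : ∃ A, ∀ u ∈ U, ∀ l ∈ u, l.1 ≤ A := by
    refine ⟨∑ u ∈ U, (u.map Prod.fst).sum, fun u hu l hl => ?_⟩
    refine (List.le_sum_of_mem (List.mem_map_of_mem hl)).trans ?_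
    exact Finset.single_le_sum (f := fun u : List (ℕ × ℂ) => (u.map Prod.fst).sum)
      (fun _ _ => Nat.zero_le _) hu
  have hσ1 : (∃ u, u ∈ U) → ‖σ‖ = 1 := by
    rintro ⟨u, hu⟩
    rw [← hσ u hu]
    exact norm_pr u (hU1 u hu)
  -- the polynomials over a ring
  have hP : ∀ O : Subring ℂ, (∀ u ∈ U, ∀ l ∈ u, l.2 ∈ O) → ∀ u : List (ℕ × ℂ), ∀ j : ℕ,
      ∃ P : Polynomial O, u ∈ U → ∀ k : ℕ,
      epc u k (k + j) * ((dl k j : ℝ) : ℂ) ^ A = σ ^ k * ((P.eval ((k : ℕ) : O) : O) : ℂ) := by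
    intro O hO u j
    by_cases hu : u ∈ U
    · obtain ⟨P, hP⟩ := poly_epc O A u (hA u hu) (hO u hu) j
      refine ⟨P, fun _ k => ?_⟩
      rw [hP k, hσ u hu]
    · exact ⟨0, fun h => absurd h hu⟩
  refine ⟨J, 2 * J * (A + 1) + 9 + 1, ?_, ?_⟩
  · intro c hc
    obtain ⟨j0, hj0, hz, k1, hk1⟩ := hJ c hc
    have hσn : ‖σ‖ = 1 := hσ1 (by obtain ⟨u, hu, _⟩ := hc; exact ⟨u, hu⟩)
    have hP' := fun u j => hP ⊤ (fun _ _ _ _ => Subring.mem_top _) u j
    choose P hPe using hP'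
    set Q : Polynomial ℂ := ∑ u ∈ U, C (c u) * (P u j0).map (⊤ : Subring ℂ).subtype with hQ
    have hQe : ∀ k : ℕ, σ ^ k * Q.eval (k : ℂ) = EC U c k (k + j0) * ((dl k j0 : ℝ) : ℂ) ^ A := by
      intro k
      rw [EC, Finset.sum_mul, hQ, eval_finsetSum, Finset.mul_sum]
      refine Finset.sum_congr rfl fun u hu => ?_
      rw [mul_assoc, hPe u j0 hu k, eval_mul, eval_C]
      have h1 := eval_natCast_map (⊤ : Subring ℂ).subtype (P u j0) k
      rw [h1]
      simp only [Subring.subtype_apply]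
      ring
    have hdlc : ∀ k, ((dl k j0 : ℝ) : ℂ) ^ A ≠ 0 := fun k =>
      pow_ne_zero _ (by exact_mod_cast (dl_pos k j0).ne')
    have hQ0 : Q ≠ 0 := by
      intro h
      have h1 := hQe k1
      rw [h, eval_zero, mul_zero] at h1
      exact (mul_ne_zero hk1 (hdlc k1)) h1.symm
    have hQn : ∀ k : ℕ, ‖Q.eval (k : ℂ)‖ = ‖EC U c k (k + j0)‖ * dl k j0 ^ A := by
      intro k
      have h1 := congrArg norm (hQe k)
      rw [norm_mul, norm_mul, norm_pow, hσn, one_pow, one_mul, norm_pow, Complex.norm_real, Real.norm_eq_abs,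
        abs_of_pos (dl_pos k j0)] at h1
      exact h1
    obtain ⟨k0, hk0⟩ := cplx_low Q hQ0
    obtain ⟨m0, hm0⟩ := exists_nat_ge (∑ u ∈ U, ‖c u‖)
    refine ⟨max (max k0 m0) (2 * J + R + 10), fun p t hpt hn => ?_⟩
    have hk : k0 ≤ t.length := (le_max_left _ _).trans ((le_max_left _ _).trans hn)
    have hm : m0 ≤ t.length := (le_max_right _ _).trans ((le_max_left _ _).trans hn)
    have hl : 2 * J + R + 10 ≤ t.length := (le_max_right _ _).trans hn
    have hlr : (1 : ℝ) ≤ t.length := by exact_mod_cast (by omega : 1 ≤ t.length)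
    refine limit2 hU le_rfl hR hj0 hz hpt hl ?_ ?_
    · have h1 : (m0 : ℝ) ≤ t.length := by exact_mod_cast hm
      nlinarith [hm0]
    · have h1 := hk0 t.length hk
      rw [hQn, div_le_iff₀ (by linarith)] at h1
      rw [pow_one]
      exact h1
  · intro O hO hUO
    have hP' := hP O hUO
    choose P hPe using hP'
    set B : ℝ := ∑ j ∈ Finset.range (J + 1), ∑ u ∈ U, ∑ i ∈ (P u j).support, ‖(((P u j).coeff i : O) : ℂ)‖ with hB
    have hB0 : 0 ≤ B := Finset.sum_nonneg fun j _ => Finset.sum_nonneg fun u _ =>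
      Finset.sum_nonneg fun i _ => norm_nonneg _
    have hcoef : ∀ j ≤ J, ∀ i, ∑ u ∈ U, ‖(((P u j).coeff i : O) : ℂ)‖ ≤ B := by
      intro j hj i
      have h1 : ∑ u ∈ U, ‖(((P u j).coeff i : O) : ℂ)‖ ≤
          ∑ u ∈ U, ∑ i ∈ (P u j).support, ‖(((P u j).coeff i : O) : ℂ)‖ := by
        refine Finset.sum_le_sum fun u _ => ?_
        by_cases hi : i ∈ (P u j).support
        · exact Finset.single_le_sum (f := fun i => ‖(((P u j).coeff i : O) : ℂ)‖) (fun _ _ => norm_nonneg _) hi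
        · rw [notMem_support_iff] at hi
          rw [hi, ZeroMemClass.coe_zero, norm_zero]
          exact Finset.sum_nonneg fun i _ => norm_nonneg _
      refine h1.trans ?_
      exact Finset.single_le_sum
        (f := fun j => ∑ u ∈ U, ∑ i ∈ (P u j).support, ‖(((P u j).coeff i : O) : ℂ)‖)
        (fun j _ => Finset.sum_nonneg fun u _ => Finset.sum_nonneg fun i _ => norm_nonneg _)
        (Finset.mem_range.2 (by omega))
    set D : ℝ := (B + 1) * ((U.card : ℝ) + 1) * ((2 * J + R + 10 : ℕ) : ℝ) with hD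
    have hD0 : 0 < D := by rw [hD]; positivity
    have hX : (1 : ℝ) ≤ ((2 * J + R + 10 : ℕ) : ℝ) := by exact_mod_cast (by omega : 1 ≤ 2 * J + R + 10)
    have hU0 : (0 : ℝ) ≤ (U.card : ℝ) := Nat.cast_nonneg _
    have hBU : (1 : ℝ) ≤ (B + 1) * ((U.card : ℝ) + 1) := by nlinarith
    refine ⟨1 / D, by positivity, fun p t hpt c hcO hc hcb => ?_⟩
    obtain ⟨u1, hu1, hcu1⟩ := hc
    have hσn : ‖σ‖ = 1 := hσ1 ⟨u1, hu1⟩
    have hl : (2 * J + R + 10 : ℕ) ≤ t.length := by
      have h1 := hcb u1 hu1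
      have h2 := hO _ (hcO u1 hu1) hcu1
      have h3 : 1 ≤ 1 / D * t.length := h2.trans h1
      rw [one_div_mul_eq_div, le_div_iff₀ hD0, one_mul] at h3
      have h4 : ((2 * J + R + 10 : ℕ) : ℝ) ≤ D := by
        rw [hD]
        exact le_mul_of_one_le_left (by positivity) hBU
      exact_mod_cast h4.trans h3
    have hlr : (1 : ℝ) ≤ t.length := by exact_mod_cast (by omega : 1 ≤ t.length)
    obtain ⟨j0, hj0, hz, k1, hk1⟩ := hJ c ⟨u1, hu1, hcu1⟩
    have hcO' : ∀ u : List (ℕ × ℂ), ∃ x : O, u ∈ U → ((x : O) : ℂ) = c u := by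
      intro u
      by_cases hu : u ∈ U
      · exact ⟨⟨c u, hcO u hu⟩, fun _ => rfl⟩
      · exact ⟨0, fun h => absurd h hu⟩
    choose c' hc' using hcO'
    set Q : Polynomial O := ∑ u ∈ U, C (c' u) * P u j0 with hQ
    have hQe : ∀ k : ℕ, σ ^ k * ((Q.eval ((k : ℕ) : O) : O) : ℂ) =
        EC U c k (k + j0) * ((dl k j0 : ℝ) : ℂ) ^ A := by
      intro k
      rw [EC, Finset.sum_mul, hQ, eval_finsetSum]
      push_cast
      rw [Finset.mul_sum]
      refine Finset.sum_congr rfl fun u hu => ?_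
      rw [mul_assoc, hPe u j0 hu k, eval_mul, eval_C]
      push_cast
      rw [hc' u hu]
      ring
    have hdlc : ∀ k, ((dl k j0 : ℝ) : ℂ) ^ A ≠ 0 := fun k =>
      pow_ne_zero _ (by exact_mod_cast (dl_pos k j0).ne')
    have hQ0 : Q ≠ 0 := by
      intro h
      have h1 := hQe k1
      rw [h, eval_zero, ZeroMemClass.coe_zero, mul_zero] at h1
      exact (mul_ne_zero hk1 (hdlc k1)) h1.symm
    have hQn : ∀ k : ℕ, ‖((Q.eval ((k : ℕ) : O) : O) : ℂ)‖ = ‖EC U c k (k + j0)‖ * dl k j0 ^ A := by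
      intro k
      have h1 := congrArg norm (hQe k)
      rw [norm_mul, norm_mul, norm_pow, hσn, one_pow, one_mul, norm_pow, Complex.norm_real, Real.norm_eq_abs,
        abs_of_pos (dl_pos k j0)] at h1
      exact h1
    have hDl : ∀ x : ℝ, 0 ≤ x → x ≤ B + 1 → 1 / D * t.length * x ≤ t.length := by
      intro x hx0 hx
      have h1 : x ≤ D := by
        rw [hD]
        have h2 : B + 1 ≤ (B + 1) * ((U.card : ℝ) + 1) := le_mul_of_one_le_right (by linarith) (by linarith)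
        have h3 : (B + 1) * ((U.card : ℝ) + 1) ≤ (B + 1) * ((U.card : ℝ) + 1) * ((2 * J + R + 10 : ℕ) : ℝ) :=
          le_mul_of_one_le_right (by positivity) hX
        linarith
      calc 1 / D * t.length * x = t.length * (x / D) := by ring
        _ ≤ t.length * 1 := mul_le_mul_of_nonneg_left ((div_le_one hD0).2 h1) (by positivity)
        _ = t.length := mul_one _
    have hco : ∀ i, ‖((Q.coeff i : O) : ℂ)‖ < (t.length : ℝ) := by
      intro i
      rw [hQ, finsetSum_coeff]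
      push_cast
      have h2 : ‖∑ u ∈ U, (((C (c' u) * P u j0).coeff i : O) : ℂ)‖ ≤ 1 / D * t.length * B := by
        refine (norm_sum_le _ _).trans ?_
        calc ∑ u ∈ U, ‖(((C (c' u) * P u j0).coeff i : O) : ℂ)‖
            ≤ ∑ u ∈ U, 1 / D * t.length * ‖(((P u j0).coeff i : O) : ℂ)‖ := by
              refine Finset.sum_le_sum fun u hu => ?_
              rw [coeff_C_mul, Subring.coe_mul, norm_mul, hc' u hu]
              exact mul_le_mul_of_nonneg_right (hcb u hu) (norm_nonneg _)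
          _ = 1 / D * t.length * ∑ u ∈ U, ‖(((P u j0).coeff i : O) : ℂ)‖ := by rw [Finset.mul_sum]
          _ ≤ _ := mul_le_mul_of_nonneg_left (hcoef j0 hj0 i) (by positivity)
      refine lt_of_le_of_lt h2 ?_
      have h3 := hDl (B + 1) (by linarith) le_rfl
      have h4 : 1 / D * t.length * B < 1 / D * t.length * (B + 1) := by
        have : 0 < 1 / D * (t.length : ℝ) := by positivity
        nlinarith
      linarith
    refine limit2 hU le_rfl hR hj0 hz hpt hl ?_ ?_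
    · have h1 : ∑ u ∈ U, ‖c u‖ ≤ t.length := by
        calc ∑ u ∈ U, ‖c u‖ ≤ ∑ _u ∈ U, 1 / D * t.length := Finset.sum_le_sum hcb
          _ = U.card * (1 / D * t.length) := by rw [Finset.sum_const, nsmul_eq_mul]
          _ ≤ t.length := by
              have h2 : (U.card : ℝ) ≤ D := by
                rw [hD]
                have h3 : (U.card : ℝ) ≤ (B + 1) * ((U.card : ℝ) + 1) := by nlinarith
                have h4 : (B + 1) * ((U.card : ℝ) + 1) ≤
                    (B + 1) * ((U.card : ℝ) + 1) * ((2 * J + R + 10 : ℕ) : ℝ) :=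
                  le_mul_of_one_le_right (by positivity) hX
                linarith
              calc (U.card : ℝ) * (1 / D * t.length) = t.length * (U.card / D) := by ring
                _ ≤ t.length * 1 := mul_le_mul_of_nonneg_left ((div_le_one hD0).2 h2) (by positivity)
                _ = t.length := mul_one _
      nlinarith
    · have h0 := disc_low O hO t.length (by omega) Q.natDegree Q le_rfl hQ0 hco
      have h1 := hO _ (Q.eval ((t.length : ℕ) : O)).2 (by
        intro h6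
        exact h0 (Subtype.ext h6))
      rw [hQn] at h1
      rw [pow_one]
      calc (1 : ℝ) ≤ ‖EC U c t.length (t.length + j0)‖ * dl t.length j0 ^ A := h1
        _ ≤ _ := le_mul_of_one_le_right (mul_nonneg (norm_nonneg _) (pow_pos (dl_pos _ _) _).le) hlr

end Pool.Agent.U623.HK
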